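import Pool.Agent.N169.P1.Vec

set_option autoImplicit false

/-! # Project P1 (helper979): numerical conditions (helper169) -/

namespace Pool.Agent.N169.P1.J1

open Pool.Agent.N979.P1 Pool.Agent.N979.P1.A Pool.Agent.N169.P1

def a1 : Fin 18 → ℚ := ![
    0, 1653/31250, 47799/500000, 68099/500000, 78679/500000, 77117/500000, 140437/1000000,
    137467/1000000, 161787/1000000, 213767/1000000, 290647/1000000, 376243/1000000, 7112/15625,
    1583/3125, 126591/250000, 54773/125000, 153047/500000, 55397/500000]

def b1 : Fin 18 → ℚ := ![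
    1305131/10000, 203131/10000, 73731/10000, 33131/10000, 23931/10000, 24641/10000,
    26531/10000, 26801/10000, 25281/10000, 23021/10000, 20541/10000, 18503/10000, 4267/2500,
    4091/2500, 8183/5000, 16853/10000, 8741/5000, 17947/10000]

def c1l : Fin 18 → ℚ := ![
    0, 2361963/62750000, 67514871/1004000000, 94136871/1004000000, 109104351/1004000000,
    110687867/1004000000, 102626331/1004000000, 92919161/1004000000, 86135481/1004000000,
    85795311/1004000000, 100925481/1004000000, 124758087/1004000000, 157024937/1004000000,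
    18930707/100400000, 21056523/100400000, 20324911/100400000, 970717/6275000, 2972297/50200000]

def e1l : Fin 18 → ℚ := ![
    92940403/1004000, 14208303/1004000, 5201193/1004000, 2538993/1004000, 1888233/1004000,
    463061/251000, 490669/251000, 2050923/1004000, 2093321/1004000, 5237/2510, 2045993/1004000,
    19892487/10040000, 19305817/10040000, 4715899/2510000, 4661669/2510000, 9349467/5020000,
    18927193/10040000, 4788863/2510000]

def c1h : Fin 18 → ℚ := ![
    0, 3925701/92312500, 644187/8440000, 6342341/59080000, 36706937/295400000,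
    183640549/1477000000, 21131629/184625000, 39485263/369250000, 40665183/369250000,
    93453551/738500000, 29800189/184625000, 151360513/738500000, 372319401/1477000000,
    1225457/4220000, 32148243/105500000, 29322153/105500000, 21435513/105500000,
    7989393/105500000]

def e1h : Fin 18 → ℚ := ![
    1546730993/14770000, 238163993/14770000, 86886693/14770000, 41060893/14770000,
    30201693/14770000, 30177633/14770000, 32175923/14770000, 33186103/14770000,
    32891123/14770000, 31836933/14770000, 30175823/14770000, 2046029/1055000, 3911283/2110000,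
    3325471/1846250, 13193897/7385000, 26670403/14770000, 27196179/14770000, 27644383/14770000]

theorem ha1 : ∀ i, alQ datQ (fAQ 2) i = a1 i := by decide +kernel

theorem hb1 : ∀ i, beQ datQ (fAQ 2) i = b1 i := by decide +kernel

theorem hcl1 : ∀ i, alQ datQ (fCQ datQ 2 (datQ.ρ 1)) i = c1l i := by decide +kernel

theorem hel1 : ∀ i, beQ datQ (fCQ datQ 2 (datQ.ρ 1)) i = e1l i := by decide +kernel

theorem hch1 : ∀ i, alQ datQ (fCQ datQ 2 (datQ.rhi RrQ 1)) i = c1h i := by decide +kernel

theorem heh1 : ∀ i, beQ datQ (fCQ datQ 2 (datQ.rhi RrQ 1)) i = e1h i := by decide +kernel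

theorem tl1 : tst sV kV a1 b1 c1l e1l (lamLo 1) dlo dhi := by decide +kernel

theorem th1 : tst sV kV a1 b1 c1h e1h (lamHi 1) dlo dhi := by decide +kernel

theorem ck1 (h : S_BND) : S_CK 1 :=
  ⟨condQ datQ 1 (datQ.ρ 1) sV kV a1 b1 c1l e1l (lamLo 1) dlo dhi hsV hkV ha1 hb1 hcl1 hel1
      tl1 h,
    condQ datQ 1 (datQ.rhi RrQ 1) sV kV a1 b1 c1h e1h (lamHi 1) dlo dhi hsV hkV ha1 hb1 hch1
      heh1 th1 h⟩

end Pool.Agent.N169.P1.J1
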