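import Pool.Agent.N169.P1.Vec

set_option autoImplicit false

/-! # Project P1 (helper979): numerical conditions (helper169) -/

namespace Pool.Agent.N169.P1.J10

open Pool.Agent.N979.P1 Pool.Agent.N979.P1.A Pool.Agent.N169.P1

def a10 : Fin 18 → ℚ := ![
    0, 567/3125, 263181/1000000, 289681/1000000, 539231/1000000, 198319/200000,
    1512377/1000000, 2086137/1000000, 2721497/1000000, 3326627/1000000, 3825107/1000000,
    4131329/1000000, 4151349/1000000, 1926937/500000, 1618923/500000, 1220203/500000,
    23894/15625, 129569/250000]

def b10 : Fin 18 → ℚ := ![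
    445931/1000, 67931/1000, 43161/1000, 40511/1000, 29661/1000, 969/50, 6123/500, 703/100,
    3059/1000, 107/250, -59/50, -19091/10000, -3891/2000, -769/500, -4547/5000, -1699/5000,
    941/10000, 837/2500]

def c10l : Fin 18 → ℚ := ![
    0, 119071/1891250, 32772353/302600000, 120771439/907800000, 133394989/907800000,
    849914581/4539000000, 298575119/1134750000, 213059207/567375000, 300479767/567375000,
    799653199/1134750000, 63658654/70921875, 2456028671/2269500000, 1396873163/1134750000,
    5940432979/4539000000, 1923335033/1513000000, 1650070153/1513000000, 1152281533/1513000000,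
    418015833/1513000000]

def e10l : Fin 18 → ℚ := ![
    93875267/605200, 43483801/1815600, 6178847/605200, 2809133/363120, 152329/21360,
    18808129/3026000, 46989157/9078000, 37713281/9078000, 386283/121040, 22060141/9078000,
    16411489/9078000, 10351227/7565000, 622834/567375, 14997307/15130000, 46730981/45390000,
    52586657/45390000, 59697923/45390000, 32471339/22695000]

def c10h : Fin 18 → ℚ := ![
    0, 704219/10056250, 189127141/1609000000, 687285323/4827000000, 822273473/4827000000,
    1135493941/4827000000, 407466263/1206750000, 288160139/603375000, 398453659/603375000,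
    1039170343/1206750000, 161743271/150843750, 3050940047/2413500000, 1695770291/1206750000,
    7050348691/4827000000, 2234168249/1609000000, 1884349129/1609000000, 1299086269/1609000000,
    467770329/1609000000]

def e10h : Fin 18 → ℚ := ![
    554995087/3218000, 256547261/9654000, 39181147/3218000, 93562661/9654000, 81824561/9654000,
    22529089/3218000, 54042853/9654000, 41762561/9654000, 10244403/3218000, 22306669/9654000,
    15731809/9654000, 9434859/8045000, 552796/603375, 13520827/16090000, 44111909/48270000,
    51608033/48270000, 59968931/48270000, 32953451/24135000]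

theorem ha10 : ∀ i, alQ datQ (fAQ 11) i = a10 i := by decide +kernel

theorem hb10 : ∀ i, beQ datQ (fAQ 11) i = b10 i := by decide +kernel

theorem hcl10 : ∀ i, alQ datQ (fCQ datQ 11 (datQ.ρ 10)) i = c10l i := by decide +kernel

theorem hel10 : ∀ i, beQ datQ (fCQ datQ 11 (datQ.ρ 10)) i = e10l i := by decide +kernel

theorem hch10 : ∀ i, alQ datQ (fCQ datQ 11 (datQ.rhi RrQ 10)) i = c10h i := by decide +kernel

theorem heh10 : ∀ i, beQ datQ (fCQ datQ 11 (datQ.rhi RrQ 10)) i = e10h i := by decide +kernel

theorem tl10 : tst sV kV a10 b10 c10l e10l (lamLo 10) dlo dhi := by decide +kernel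

theorem th10 : tst sV kV a10 b10 c10h e10h (lamHi 10) dlo dhi := by decide +kernel

theorem ck10 (h : S_BND) : S_CK 10 :=
  ⟨condQ datQ 10 (datQ.ρ 10) sV kV a10 b10 c10l e10l (lamLo 10) dlo dhi hsV hkV ha10 hb10 hcl10 hel10
      tl10 h,
    condQ datQ 10 (datQ.rhi RrQ 10) sV kV a10 b10 c10h e10h (lamHi 10) dlo dhi hsV hkV ha10 hb10 hch10
      heh10 th10 h⟩

end Pool.Agent.N169.P1.J10
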