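import Pool.Agent.N169.P1.Vec

set_option autoImplicit false

/-! # Project P1 (helper979): numerical conditions (helper169) -/

namespace Pool.Agent.N169.P1.J11

open Pool.Agent.N979.P1 Pool.Agent.N979.P1.A Pool.Agent.N169.P1

def a11 : Fin 18 → ℚ := ![
    0, 16437/62500, 177201/500000, 243401/500000, 60627/62500, 102229/62500, 292131/125000,
    1531469/500000, 1904109/500000, 2226799/500000, 2443489/500000, 2513629/500000,
    4798183/1000000, 4224987/1000000, 3371309/1000000, 2439049/1000000, 1480609/1000000,
    493189/1000000]

def b11 : Fin 18 → ℚ := ![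
    1617661/2500, 247911/2500, 178661/2500, 145561/2500, 23259/625, 13804/625, 7799/625,
    29397/5000, 6107/5000, -7923/5000, -14913/5000, -16583/5000, -29001/10000, -21149/10000,
    -6219/5000, -5779/10000, -243/2000, 71/625]

def c11l : Fin 18 → ℚ := ![
    0, 704219/10056250, 189127141/1609000000, 687285323/4827000000, 822273473/4827000000,
    1135493941/4827000000, 407466263/1206750000, 288160139/603375000, 398453659/603375000,
    1039170343/1206750000, 161743271/150843750, 3050940047/2413500000, 1695770291/1206750000,
    7050348691/4827000000, 2234168249/1609000000, 1884349129/1609000000, 1299086269/1609000000,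
    467770329/1609000000]

def e11l : Fin 18 → ℚ := ![
    554995087/3218000, 256547261/9654000, 39181147/3218000, 93562661/9654000, 81824561/9654000,
    22529089/3218000, 54042853/9654000, 41762561/9654000, 10244403/3218000, 22306669/9654000,
    15731809/9654000, 9434859/8045000, 552796/603375, 13520827/16090000, 44111909/48270000,
    51608033/48270000, 59968931/48270000, 32953451/24135000]

def c11h : Fin 18 → ℚ := ![
    0, 6374703/79578125, 132330471/1018600000, 163354931/1018600000, 216060397/1018600000,
    314116113/1018600000, 10234181/23150000, 14181921/23150000, 210030763/254650000,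
    133533461/127325000, 323786041/254650000, 3719565361/2546500000, 4029698921/2546500000,
    8174195233/5093000000, 7599272941/5093000000, 6301834421/5093000000, 4291100801/5093000000,
    1534499261/5093000000]

def e11h : Fin 18 → ℚ := ![
    913283419/4630000, 1546513609/50930000, 777812509/50930000, 622690209/50930000,
    508113109/50930000, 396686159/50930000, 303406809/50930000, 224452009/50930000,
    156914969/50930000, 107318309/50930000, 70725329/50930000, 23893499/25465000,
    18254707/25465000, 3176077/4630000, 40803401/50930000, 50070819/50930000,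
    59645741/50930000, 33104539/25465000]

theorem ha11 : ∀ i, alQ datQ (fAQ 12) i = a11 i := by decide +kernel

theorem hb11 : ∀ i, beQ datQ (fAQ 12) i = b11 i := by decide +kernel

theorem hcl11 : ∀ i, alQ datQ (fCQ datQ 12 (datQ.ρ 11)) i = c11l i := by decide +kernel

theorem hel11 : ∀ i, beQ datQ (fCQ datQ 12 (datQ.ρ 11)) i = e11l i := by decide +kernel

theorem hch11 : ∀ i, alQ datQ (fCQ datQ 12 (datQ.rhi RrQ 11)) i = c11h i := by decide +kernel

theorem heh11 : ∀ i, beQ datQ (fCQ datQ 12 (datQ.rhi RrQ 11)) i = e11h i := by decide +kernel

theorem tl11 : tst sV kV a11 b11 c11l e11l (lamLo 11) dlo dhi := by decide +kernel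

theorem th11 : tst sV kV a11 b11 c11h e11h (lamHi 11) dlo dhi := by decide +kernel

theorem ck11 (h : S_BND) : S_CK 11 :=
  ⟨condQ datQ 11 (datQ.ρ 11) sV kV a11 b11 c11l e11l (lamLo 11) dlo dhi hsV hkV ha11 hb11 hcl11 hel11
      tl11 h,
    condQ datQ 11 (datQ.rhi RrQ 11) sV kV a11 b11 c11h e11h (lamHi 11) dlo dhi hsV hkV ha11 hb11 hch11
      heh11 th11 h⟩

end Pool.Agent.N169.P1.J11
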