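import Pool.Agent.N169.P1.Vec

set_option autoImplicit false

/-! # Project P1 (helper979): numerical conditions (helper169) -/

namespace Pool.Agent.N169.P1.J12

open Pool.Agent.N979.P1 Pool.Agent.N979.P1.A Pool.Agent.N169.P1

def a12 : Fin 18 → ℚ := ![
    0, 25599/62500, 274257/500000, 473457/500000, 55387/31250, 677429/250000, 3619369/1000000,
    4488149/1000000, 5291829/1000000, 5885229/1000000, 6120209/1000000, 5945993/1000000,
    5343413/1000000, 1107929/250000, 836763/250000, 290999/125000, 685511/500000, 224561/500000]

def b12 : Fin 18 → ℚ := ![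
    2031553/2000, 324953/2000, 240753/2000, 161073/2000, 89293/2000, 46687/2000, 4353/400,
    5969/2000, -4077/2000, -9237/2000, -10753/2000, -49617/10000, -38661/10000, -6543/2500,
    -944/625, -313/400, -817/2500, -1073/10000]

def c12l : Fin 18 → ℚ := ![
    0, 6374703/79578125, 132330471/1018600000, 163354931/1018600000, 216060397/1018600000,
    314116113/1018600000, 10234181/23150000, 14181921/23150000, 210030763/254650000,
    133533461/127325000, 323786041/254650000, 3719565361/2546500000, 4029698921/2546500000,
    8174195233/5093000000, 7599272941/5093000000, 6301834421/5093000000, 4291100801/5093000000,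
    1534499261/5093000000]

def e12l : Fin 18 → ℚ := ![
    913283419/4630000, 1546513609/50930000, 777812509/50930000, 622690209/50930000,
    508113109/50930000, 396686159/50930000, 303406809/50930000, 224452009/50930000,
    156914969/50930000, 107318309/50930000, 70725329/50930000, 23893499/25465000,
    18254707/25465000, 3176077/4630000, 40803401/50930000, 50070819/50930000,
    59645741/50930000, 33104539/25465000]

def c12h : Fin 18 → ℚ := ![
    0, 1379103/14500000, 794941257/5336000000, 1046874757/5336000000, 1510991297/5336000000,
    2229041553/5336000000, 3131026487/5336000000, 4210642827/5336000000, 5486529707/5336000000,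
    6771449087/5336000000, 7962931607/5336000000, 8884007021/5336000000, 9357847201/5336000000,
    9251102221/5336000000, 8412606577/5336000000, 6867536477/5336000000, 4624259147/5336000000,
    1643635907/5336000000]

def e12h : Fin 18 → ℚ := ![
    1564306813/6670000, 121333219/3335000, 267581851/13340000, 51149619/3335000,
    77075513/6670000, 28338179/3335000, 82462821/13340000, 28963043/6670000, 3303509/1160000,
    48047677/26680000, 28830217/26680000, 35730067/53360000, 27114791/53360000,
    28577051/53360000, 37133129/53360000, 376323/416875, 58851617/53360000, 65948339/53360000]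

theorem ha12 : ∀ i, alQ datQ (fAQ 13) i = a12 i := by decide +kernel

theorem hb12 : ∀ i, beQ datQ (fAQ 13) i = b12 i := by decide +kernel

theorem hcl12 : ∀ i, alQ datQ (fCQ datQ 13 (datQ.ρ 12)) i = c12l i := by decide +kernel

theorem hel12 : ∀ i, beQ datQ (fCQ datQ 13 (datQ.ρ 12)) i = e12l i := by decide +kernel

theorem hch12 : ∀ i, alQ datQ (fCQ datQ 13 (datQ.rhi RrQ 12)) i = c12h i := by decide +kernel

theorem heh12 : ∀ i, beQ datQ (fCQ datQ 13 (datQ.rhi RrQ 12)) i = e12h i := by decide +kernel

theorem tl12 : tst sV kV a12 b12 c12l e12l (lamLo 12) dlo dhi := by decide +kernel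

theorem th12 : tst sV kV a12 b12 c12h e12h (lamHi 12) dlo dhi := by decide +kernel

theorem ck12 (h : S_BND) : S_CK 12 :=
  ⟨condQ datQ 12 (datQ.ρ 12) sV kV a12 b12 c12l e12l (lamLo 12) dlo dhi hsV hkV ha12 hb12 hcl12 hel12
      tl12 h,
    condQ datQ 12 (datQ.rhi RrQ 12) sV kV a12 b12 c12h e12h (lamHi 12) dlo dhi hsV hkV ha12 hb12 hch12
      heh12 th12 h⟩

end Pool.Agent.N169.P1.J12
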