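import Pool.Agent.N169.P1.Vec

set_option autoImplicit false

/-! # Project P1 (helper979): numerical conditions (helper169) -/

namespace Pool.Agent.N169.P1.J13

open Pool.Agent.N979.P1 Pool.Agent.N979.P1.A Pool.Agent.N169.P1

def a13 : Fin 18 → ℚ := ![
    0, 43599/62500, 1055271/1000000, 1969771/1000000, 3241211/1000000, 4483419/1000000,
    5580171/1000000, 6517921/1000000, 7246561/1000000, 7600531/1000000, 7410501/1000000,
    6714687/1000000, 2807371/500000, 4357609/1000000, 623131/200000, 419739/200000,
    240399/200000, 77859/200000]

def b13 : Fin 18 → ℚ := ![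
    702951/400, 121631/400, 3131/16, 8339/80, 19583/400, 41451/2000, 11403/2000, -5647/2000,
    -2951/400, -17833/2000, -16607/2000, -16617/2500, -46469/10000, -1828/625, -663/400,
    -9311/10000, -5041/10000, -1553/5000]

def c13l : Fin 18 → ℚ := ![
    0, 1379103/14500000, 794941257/5336000000, 1046874757/5336000000, 1510991297/5336000000,
    2229041553/5336000000, 3131026487/5336000000, 4210642827/5336000000, 5486529707/5336000000,
    6771449087/5336000000, 7962931607/5336000000, 8884007021/5336000000, 9357847201/5336000000,
    9251102221/5336000000, 8412606577/5336000000, 6867536477/5336000000, 4624259147/5336000000,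
    1643635907/5336000000]

def e13l : Fin 18 → ℚ := ![
    1564306813/6670000, 121333219/3335000, 267581851/13340000, 51149619/3335000,
    77075513/6670000, 28338179/3335000, 82462821/13340000, 28963043/6670000, 3303509/1160000,
    48047677/26680000, 28830217/26680000, 35730067/53360000, 27114791/53360000,
    28577051/53360000, 37133129/53360000, 376323/416875, 58851617/53360000, 65948339/53360000]

def c13h : Fin 18 → ℚ := ![
    0, 10338687/86828125, 257039037/1389250000, 370548537/1389250000, 139206183/347312500,
    100621161/173656250, 2182122139/2778500000, 706387921/694625000, 886002461/694625000,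
    4225583219/2778500000, 1200081541/694625000, 647997053/347312500, 10598705183/5557000000,
    1021413381/555700000, 2275291583/1389250000, 916418509/694625000, 2444950021/2778500000,
    864835051/2778500000]

def e13h : Fin 18 → ℚ := ![
    16398258779/55570000, 2613342779/55570000, 1502796779/55570000, 1048758779/55570000,
    724800179/55570000, 499214219/55570000, 342451599/55570000, 225464409/55570000,
    135657139/55570000, 76389889/55570000, 39309699/55570000, 21040639/55570000,
    8422571/27785000, 22113243/55570000, 16735027/27785000, 46111613/55570000,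
    14434389/13892500, 65261913/55570000]

theorem ha13 : ∀ i, alQ datQ (fAQ 14) i = a13 i := by decide +kernel

theorem hb13 : ∀ i, beQ datQ (fAQ 14) i = b13 i := by decide +kernel

theorem hcl13 : ∀ i, alQ datQ (fCQ datQ 14 (datQ.ρ 13)) i = c13l i := by decide +kernel

theorem hel13 : ∀ i, beQ datQ (fCQ datQ 14 (datQ.ρ 13)) i = e13l i := by decide +kernel

theorem hch13 : ∀ i, alQ datQ (fCQ datQ 14 (datQ.rhi RrQ 13)) i = c13h i := by decide +kernel

theorem heh13 : ∀ i, beQ datQ (fCQ datQ 14 (datQ.rhi RrQ 13)) i = e13h i := by decide +kernel

theorem tl13 : tst sV kV a13 b13 c13l e13l (lamLo 13) dlo dhi := by decide +kernel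

theorem th13 : tst sV kV a13 b13 c13h e13h (lamHi 13) dlo dhi := by decide +kernel

theorem ck13 (h : S_BND) : S_CK 13 :=
  ⟨condQ datQ 13 (datQ.ρ 13) sV kV a13 b13 c13l e13l (lamLo 13) dlo dhi hsV hkV ha13 hb13 hcl13 hel13
      tl13 h,
    condQ datQ 13 (datQ.rhi RrQ 13) sV kV a13 b13 c13h e13h (lamHi 13) dlo dhi hsV hkV ha13 hb13 hch13
      heh13 th13 h⟩

end Pool.Agent.N169.P1.J13
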