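import Pool.Agent.N169.P1.Vec

set_option autoImplicit false

/-! # Project P1 (helper979): numerical conditions (helper169) -/

namespace Pool.Agent.N169.P1.J14

open Pool.Agent.N979.P1 Pool.Agent.N979.P1.A Pool.Agent.N169.P1

def a14 : Fin 18 → ℚ := ![
    0, 8391/6250, 146511/62500, 996569/250000, 1423679/250000, 223317/31250, 8275673/1000000,
    9073173/1000000, 9430613/1000000, 9188653/1000000, 8210603/1000000, 6770297/1000000,
    5153407/1000000, 3693261/1000000, 497239/200000, 319103/200000, 177143/200000, 56939/200000]

def b14 : Fin 18 → ℚ := ![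
    6763381/2000, 1169381/2000, 562341/2000, 233921/2000, 85361/2000, 19387/2000, -11559/2000,
    -26059/2000, -30527/2000, -28423/2000, -22113/2000, -4767/625, -23437/5000, -3359/1250,
    -2911/2000, -8193/10000, -4813/10000, -1691/5000]

def c14l : Fin 18 → ℚ := ![
    0, 10338687/86828125, 257039037/1389250000, 370548537/1389250000, 139206183/347312500,
    100621161/173656250, 2182122139/2778500000, 706387921/694625000, 886002461/694625000,
    4225583219/2778500000, 1200081541/694625000, 647997053/347312500, 10598705183/5557000000,
    1021413381/555700000, 2275291583/1389250000, 916418509/694625000, 2444950021/2778500000,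
    864835051/2778500000]

def e14l : Fin 18 → ℚ := ![
    16398258779/55570000, 2613342779/55570000, 1502796779/55570000, 1048758779/55570000,
    724800179/55570000, 499214219/55570000, 342451599/55570000, 225464409/55570000,
    135657139/55570000, 76389889/55570000, 39309699/55570000, 21040639/55570000,
    8422571/27785000, 22113243/55570000, 16735027/27785000, 46111613/55570000,
    14434389/13892500, 65261913/55570000]

def c14h : Fin 18 → ℚ := ![
    0, 14450277/89890625, 371903661/1438250000, 565876061/1438250000, 104483227/179781250,
    144391293/179781250, 272103463/261500000, 168851029/130750000, 2234104959/1438250000,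
    5126071213/2876500000, 2802482629/1438250000, 584746553/287650000, 2321754591/1150600000,
    5469006483/2876500000, 108959779/65375000, 1911017253/1438250000, 2531750091/2876500000,
    892735161/2876500000]

def e14h : Fin 18 → ℚ := ![
    23026372159/57530000, 3759336159/57530000, 2053890959/57530000, 1278001359/57530000,
    808453959/57530000, 518213479/57530000, 331123779/57530000, 199926589/57530000,
    9612789/5230000, 48535349/57530000, 17638959/57530000, 553757/5230000, 3828919/28765000,
    16846331/57530000, 15308637/28765000, 8901157/11506000, 3549638/3595625, 64599041/57530000]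

theorem ha14 : ∀ i, alQ datQ (fAQ 15) i = a14 i := by decide +kernel

theorem hb14 : ∀ i, beQ datQ (fAQ 15) i = b14 i := by decide +kernel

theorem hcl14 : ∀ i, alQ datQ (fCQ datQ 15 (datQ.ρ 14)) i = c14l i := by decide +kernel

theorem hel14 : ∀ i, beQ datQ (fCQ datQ 15 (datQ.ρ 14)) i = e14l i := by decide +kernel

theorem hch14 : ∀ i, alQ datQ (fCQ datQ 15 (datQ.rhi RrQ 14)) i = c14h i := by decide +kernel

theorem heh14 : ∀ i, beQ datQ (fCQ datQ 15 (datQ.rhi RrQ 14)) i = e14h i := by decide +kernel

theorem tl14 : tst sV kV a14 b14 c14l e14l (lamLo 14) dlo dhi := by decide +kernel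

theorem th14 : tst sV kV a14 b14 c14h e14h (lamHi 14) dlo dhi := by decide +kernel

theorem ck14 (h : S_BND) : S_CK 14 :=
  ⟨condQ datQ 14 (datQ.ρ 14) sV kV a14 b14 c14l e14l (lamLo 14) dlo dhi hsV hkV ha14 hb14 hcl14 hel14
      tl14 h,
    condQ datQ 14 (datQ.rhi RrQ 14) sV kV a14 b14 c14h e14h (lamHi 14) dlo dhi hsV hkV ha14 hb14 hch14
      heh14 th14 h⟩

end Pool.Agent.N169.P1.J14
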