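import Pool.Agent.N169.P1.Vec

set_option autoImplicit false

/-! # Project P1 (helper979): numerical conditions (helper169) -/

namespace Pool.Agent.N169.P1.J15

open Pool.Agent.N979.P1 Pool.Agent.N979.P1.A Pool.Agent.N169.P1

def a15 : Fin 18 → ℚ := ![
    0, 179343/62500, 1231941/250000, 890333/125000, 139481/15625, 637927/62500, 2740997/250000,
    5565429/500000, 5243269/500000, 4548899/500000, 1772947/250000, 159881/31250,
    1741621/500000, 2271369/1000000, 1443171/1000000, 822131/1000000, 467441/1000000,
    154961/1000000]

def b15 : Fin 18 → ℚ := ![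
    69133879/10000, 9352879/10000, 3115679/10000, 920779/10000, 136379/10000, -154541/10000,
    -258261/10000, -273431/10000, -233161/10000, -172781/10000, -108071/10000, -61033/10000,
    -31343/10000, -7371/5000, -6291/10000, -371/2000, -83/5000, 289/5000]

def c15l : Fin 18 → ℚ := ![
    0, 14450277/89890625, 371903661/1438250000, 565876061/1438250000, 104483227/179781250,
    144391293/179781250, 272103463/261500000, 168851029/130750000, 2234104959/1438250000,
    5126071213/2876500000, 2802482629/1438250000, 584746553/287650000, 2321754591/1150600000,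
    5469006483/2876500000, 108959779/65375000, 1911017253/1438250000, 2531750091/2876500000,
    892735161/2876500000]

def e15l : Fin 18 → ℚ := ![
    23026372159/57530000, 3759336159/57530000, 2053890959/57530000, 1278001359/57530000,
    808453959/57530000, 518213479/57530000, 331123779/57530000, 199926589/57530000,
    9612789/5230000, 48535349/57530000, 17638959/57530000, 553757/5230000, 3828919/28765000,
    16846331/57530000, 15308637/28765000, 8901157/11506000, 3549638/3595625, 64599041/57530000]

def c15h : Fin 18 → ℚ := ![
    0, 7387342/30859375, 194599171/493750000, 290716871/493750000, 152464691/185156250,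
    39850603/37031250, 1312013687/987500000, 2335988213/1481250000, 2685026093/1481250000,
    1969493947/987500000, 3107429513/1481250000, 3143729021/1481250000, 12207890579/5925000000,
    1888114739/987500000, 2459171491/1481250000, 973184443/740625000, 2571950017/2962500000,
    906061807/2962500000]

def e15h : Fin 18 → ℚ := ![
    34917399347/59250000, 5368031347/59250000, 2589787747/59250000, 1436375347/59250000,
    831911147/59250000, 491632427/59250000, 95567629/19750000, 152896457/59250000,
    65636987/59250000, 6272339/19750000, -949253/59250000, -1468783/19750000, 377807/9875000,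
    14310707/59250000, 4922537/9875000, 1767469/2370000, 7095707/7406250, 64698457/59250000]

theorem ha15 : ∀ i, alQ datQ (fAQ 16) i = a15 i := by decide +kernel

theorem hb15 : ∀ i, beQ datQ (fAQ 16) i = b15 i := by decide +kernel

theorem hcl15 : ∀ i, alQ datQ (fCQ datQ 16 (datQ.ρ 15)) i = c15l i := by decide +kernel

theorem hel15 : ∀ i, beQ datQ (fCQ datQ 16 (datQ.ρ 15)) i = e15l i := by decide +kernel

theorem hch15 : ∀ i, alQ datQ (fCQ datQ 16 (datQ.rhi RrQ 15)) i = c15h i := by decide +kernel

theorem heh15 : ∀ i, beQ datQ (fCQ datQ 16 (datQ.rhi RrQ 15)) i = e15h i := by decide +kernel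

theorem tl15 : tst sV kV a15 b15 c15l e15l (lamLo 15) dlo dhi := by decide +kernel

theorem th15 : tst sV kV a15 b15 c15h e15h (lamHi 15) dlo dhi := by decide +kernel

theorem ck15 (h : S_BND) : S_CK 15 :=
  ⟨condQ datQ 15 (datQ.ρ 15) sV kV a15 b15 c15l e15l (lamLo 15) dlo dhi hsV hkV ha15 hb15 hcl15 hel15
      tl15 h,
    condQ datQ 15 (datQ.rhi RrQ 15) sV kV a15 b15 c15h e15h (lamHi 15) dlo dhi hsV hkV ha15 hb15 hch15
      heh15 th15 h⟩

end Pool.Agent.N169.P1.J15
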