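import Pool.Agent.N169.P1.Vec

set_option autoImplicit false

/-! # Project P1 (helper979): numerical conditions (helper169) -/

namespace Pool.Agent.N169.P1.J17

open Pool.Agent.N979.P1 Pool.Agent.N979.P1.A Pool.Agent.N169.P1

def a17 : Fin 18 → ℚ := ![
    0, 860691/62500, 16034229/1000000, 16891029/1000000, 16681039/1000000, 15625611/1000000,
    13781631/1000000, 11165171/1000000, 8127251/1000000, 5564591/1000000, 3763181/1000000,
    2579579/1000000, 1875579/1000000, 1362243/1000000, 1005621/1000000, 643441/1000000,
    415801/1000000, 146581/1000000]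

def b17 : Fin 18 → ℚ := ![
    293378771/10000, 6481771/10000, -376329/10000, -1233129/10000, -1141829/10000,
    -901959/10000, -649359/10000, -411499/10000, -221629/10000, -110209/10000, -52099/10000,
    -11959/5000, -5559/5000, -2043/5000, -447/10000, 107/500, 403/1250, 773/2000]

def c17l : Fin 18 → ℚ := ![
    0, 37115346/94859375, 1856621367/3035500000, 2588124067/3035500000, 3375955487/3035500000,
    832267287/607100000, 1223053127/758875000, 5547639093/3035500000, 6094867653/3035500000,
    1614166627/758875000, 6596283223/3035500000, 503266297/233500000, 12553146707/6071000000,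
    2890735373/1517750000, 4999499199/3035500000, 3943520149/3035500000, 1301815607/1517750000,
    229269541/758875000]

def e17l : Fin 18 → ℚ := ![
    56462039727/60710000, 6974911727/60710000, 2920788727/60710000, 112137179/4670000,
    772712527/60710000, 415721187/60710000, 215481167/60710000, 7408669/4670000,
    27909127/60710000, -3551643/60710000, -12559173/60710000, -9996251/60710000,
    -163789/30355000, 13236877/60710000, 729887/1517750, 8856179/12142000, 28520871/30355000,
    65072947/60710000]

def c17h : Fin 18 → ℚ := ![
    0, 62936076/96734375, 2818675107/3095500000, 3601585807/3095500000, 4376817827/3095500000,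
    1019774619/619100000, 178722199/96734375, 6217549353/3095500000, 6582502713/3095500000,
    424408873/193468750, 6822074083/3095500000, 6697236601/3095500000, 12778216187/6191000000,
    2931602663/1547750000, 5059836459/3095500000, 3982126609/3095500000, 1314289637/1547750000,
    28933532/96734375]

def e17h : Fin 18 → ℚ := ![
    91667492247/61910000, 7752724247/61910000, 2875629247/61910000, 1309807847/61910000,
    635693047/61910000, 307486107/61910000, 137558087/61910000, 46932817/61910000,
    1313647/61910000, -16776723/61910000, -18811053/61910000, -12866411/61910000,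
    -830869/30955000, 12746557/61910000, 364273/773875, 8907539/12382000, 190161/205000,
    65536747/61910000]

theorem ha17 : ∀ i, alQ datQ (fAQ 18) i = a17 i := by decide +kernel

theorem hb17 : ∀ i, beQ datQ (fAQ 18) i = b17 i := by decide +kernel

theorem hcl17 : ∀ i, alQ datQ (fCQ datQ 18 (datQ.ρ 17)) i = c17l i := by decide +kernel

theorem hel17 : ∀ i, beQ datQ (fCQ datQ 18 (datQ.ρ 17)) i = e17l i := by decide +kernel

theorem hch17 : ∀ i, alQ datQ (fCQ datQ 18 (datQ.rhi RrQ 17)) i = c17h i := by decide +kernel

theorem heh17 : ∀ i, beQ datQ (fCQ datQ 18 (datQ.rhi RrQ 17)) i = e17h i := by decide +kernel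

theorem tl17 : tst sV kV a17 b17 c17l e17l (lamLo 17) dlo dhi := by decide +kernel

theorem th17 : tst sV kV a17 b17 c17h e17h (lamHi 17) dlo dhi := by decide +kernel

theorem ck17 (h : S_BND) : S_CK 17 :=
  ⟨condQ datQ 17 (datQ.ρ 17) sV kV a17 b17 c17l e17l (lamLo 17) dlo dhi hsV hkV ha17 hb17 hcl17 hel17
      tl17 h,
    condQ datQ 17 (datQ.rhi RrQ 17) sV kV a17 b17 c17h e17h (lamHi 17) dlo dhi hsV hkV ha17 hb17 hch17
      heh17 th17 h⟩

end Pool.Agent.N169.P1.J17
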