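import Pool.Agent.N169.P1.Vec

set_option autoImplicit false

/-! # Project P1 (helper979): numerical conditions (helper169) -/

namespace Pool.Agent.N169.P1.J18

open Pool.Agent.N979.P1 Pool.Agent.N979.P1.A Pool.Agent.N169.P1

def a18 : Fin 18 → ℚ := ![
    0, 1553079/62500, 24114651/1000000, 22225651/1000000, 19579041/1000000, 16350497/1000000,
    12775833/1000000, 9198083/1000000, 6170243/1000000, 4165333/1000000, 2953543/1000000,
    432251/200000, 331711/200000, 620023/500000, 476453/500000, 297113/500000, 200723/500000,
    71153/500000]

def b18 : Fin 18 → ℚ := ![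
    25526351/500, -358299/500, -123497/250, -38136/125, -95009/500, -58321/500, -33837/500,
    -35149/1000, -649/40, -1877/250, -3599/1000, -8563/5000, -3993/5000, -2253/10000,
    677/10000, 3239/10000, 4157/10000, 2387/5000]

def c18l : Fin 18 → ℚ := ![
    0, 62936076/96734375, 2818675107/3095500000, 3601585807/3095500000, 4376817827/3095500000,
    1019774619/619100000, 178722199/96734375, 6217549353/3095500000, 6582502713/3095500000,
    424408873/193468750, 6822074083/3095500000, 6697236601/3095500000, 12778216187/6191000000,
    2931602663/1547750000, 5059836459/3095500000, 3982126609/3095500000, 1314289637/1547750000,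
    28933532/96734375]

def e18l : Fin 18 → ℚ := ![
    91667492247/61910000, 7752724247/61910000, 2875629247/61910000, 1309807847/61910000,
    635693047/61910000, 307486107/61910000, 137558087/61910000, 46932817/61910000,
    1313647/61910000, -16776723/61910000, -18811053/61910000, -12866411/61910000,
    -830869/30955000, 12746557/61910000, 364273/773875, 8907539/12382000, 190161/205000,
    65536747/61910000]

def c18h : Fin 18 → ℚ := ![
    0, 131024831/130875000, 522118897/418800000, 615047057/418800000, 2107065677/1256400000,
    11685641417/6282000000, 12600821539/6282000000, 13272124259/6282000000,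
    13726497539/6282000000, 1551125471/698000000, 4637640193/2094000000, 4530382469/2094000000,
    3232286173/1570500000, 5919627419/3141000000, 2551596841/1570500000, 334096991/261750000,
    882281689/1047000000, 310782649/1047000000]

def e18h : Fin 18 → ℚ := ![
    138125451067/62820000, 7100620067/62820000, 2426100167/62820000, 1032177767/62820000,
    154258889/20940000, 201341887/62820000, 75974747/62820000, 1660803/6980000,
    -1494567/6980000, -23609003/62820000, -22086143/62820000, -14424877/62820000,
    -149279/3926250, 6270767/31410000, 29203447/62820000, 3736037/5235000, 57806909/62820000,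
    65971181/62820000]

theorem ha18 : ∀ i, alQ datQ (fAQ 19) i = a18 i := by decide +kernel

theorem hb18 : ∀ i, beQ datQ (fAQ 19) i = b18 i := by decide +kernel

theorem hcl18 : ∀ i, alQ datQ (fCQ datQ 19 (datQ.ρ 18)) i = c18l i := by decide +kernel

theorem hel18 : ∀ i, beQ datQ (fCQ datQ 19 (datQ.ρ 18)) i = e18l i := by decide +kernel

theorem hch18 : ∀ i, alQ datQ (fCQ datQ 19 (datQ.rhi RrQ 18)) i = c18h i := by decide +kernel

theorem heh18 : ∀ i, beQ datQ (fCQ datQ 19 (datQ.rhi RrQ 18)) i = e18h i := by decide +kernel

theorem tl18 : tst sV kV a18 b18 c18l e18l (lamLo 18) dlo dhi := by decide +kernel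

theorem th18 : tst sV kV a18 b18 c18h e18h (lamHi 18) dlo dhi := by decide +kernel

theorem ck18 (h : S_BND) : S_CK 18 :=
  ⟨condQ datQ 18 (datQ.ρ 18) sV kV a18 b18 c18l e18l (lamLo 18) dlo dhi hsV hkV ha18 hb18 hcl18 hel18
      tl18 h,
    condQ datQ 18 (datQ.rhi RrQ 18) sV kV a18 b18 c18h e18h (lamHi 18) dlo dhi hsV hkV ha18 hb18 hch18
      heh18 th18 h⟩

end Pool.Agent.N169.P1.J18
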