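import Pool.Agent.N169.P1.Vec

set_option autoImplicit false

/-! # Project P1 (helper979): numerical conditions (helper169) -/

namespace Pool.Agent.N169.P1.J19

open Pool.Agent.N979.P1 Pool.Agent.N979.P1.A Pool.Agent.N169.P1

def a19 : Fin 18 → ℚ := ![
    0, 2441139/62500, 6534591/200000, 5338571/200000, 4159407/200000, 3050123/200000,
    532161/50000, 714621/100000, 478989/100000, 343841/100000, 50937/20000, 975729/500000,
    383557/250000, 1153533/1000000, 920097/1000000, 546997/1000000, 391387/1000000,
    137287/1000000]

def b19 : Fin 18 → ℚ := ![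
    391673917/5000, -15182583/5000, -5507933/5000, -2517883/5000, -1236183/5000, -151477/1250,
    -290333/5000, -65689/2500, -57743/5000, -28363/5000, -13983/5000, -1379/1000, -1551/2500,
    -989/10000, 1393/10000, 2029/5000, 4799/10000, 1351/2500]

def c19l : Fin 18 → ℚ := ![
    0, 131024831/130875000, 522118897/418800000, 615047057/418800000, 2107065677/1256400000,
    11685641417/6282000000, 12600821539/6282000000, 13272124259/6282000000,
    13726497539/6282000000, 1551125471/698000000, 4637640193/2094000000, 4530382469/2094000000,
    3232286173/1570500000, 5919627419/3141000000, 2551596841/1570500000, 334096991/261750000,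
    882281689/1047000000, 310782649/1047000000]

def e19l : Fin 18 → ℚ := ![
    138125451067/62820000, 7100620067/62820000, 2426100167/62820000, 1032177767/62820000,
    154258889/20940000, 201341887/62820000, 75974747/62820000, 1660803/6980000,
    -1494567/6980000, -23609003/62820000, -22086143/62820000, -14424877/62820000,
    -149279/3926250, 6270767/31410000, 29203447/62820000, 3736037/5235000, 57806909/62820000,
    65971181/62820000]

def c19h : Fin 18 → ℚ := ![
    0, 135495993/99109375, 982483371/634300000, 1085397001/634300000, 36887336/19821875,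
    3153982233/1585750000, 13250057959/6343000000, 13708043069/6343000000,
    14018680829/6343000000, 14169872249/6343000000, 14068278429/6343000000,
    2742037269/1268600000, 65113663/31715000, 11909620351/6343000000, 10262513281/6343000000,
    8051694601/6343000000, 5317564741/6343000000, 1873070401/6343000000]

def e19h : Fin 18 → ℚ := ![
    185909668941/63430000, 5248344941/63430000, 1754132341/63430000, 724996041/63430000,
    311962341/63430000, 127421111/63430000, 40554121/63430000, -1080889/63430000,
    -20495749/63430000, -27069289/63430000, -23792069/63430000, -15266067/63430000,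
    -691727/15857500, 2496241/12686000, 1464421/3171500, 22539991/31715000, 3631228/3964375,
    2652033/2537200]

theorem ha19 : ∀ i, alQ datQ (fAQ 20) i = a19 i := by decide +kernel

theorem hb19 : ∀ i, beQ datQ (fAQ 20) i = b19 i := by decide +kernel

theorem hcl19 : ∀ i, alQ datQ (fCQ datQ 20 (datQ.ρ 19)) i = c19l i := by decide +kernel

theorem hel19 : ∀ i, beQ datQ (fCQ datQ 20 (datQ.ρ 19)) i = e19l i := by decide +kernel

theorem hch19 : ∀ i, alQ datQ (fCQ datQ 20 (datQ.rhi RrQ 19)) i = c19h i := by decide +kernel

theorem heh19 : ∀ i, beQ datQ (fCQ datQ 20 (datQ.rhi RrQ 19)) i = e19h i := by decide +kernel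

theorem tl19 : tst sV kV a19 b19 c19l e19l (lamLo 19) dlo dhi := by decide +kernel

theorem th19 : tst sV kV a19 b19 c19h e19h (lamHi 19) dlo dhi := by decide +kernel

theorem ck19 (h : S_BND) : S_CK 19 :=
  ⟨condQ datQ 19 (datQ.ρ 19) sV kV a19 b19 c19l e19l (lamLo 19) dlo dhi hsV hkV ha19 hb19 hcl19 hel19
      tl19 h,
    condQ datQ 19 (datQ.rhi RrQ 19) sV kV a19 b19 c19h e19h (lamHi 19) dlo dhi hsV hkV ha19 hb19 hch19
      heh19 th19 h⟩

end Pool.Agent.N169.P1.J19
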