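import Pool.Agent.N169.P1.Vec

set_option autoImplicit false

/-! # Project P1 (helper979): numerical conditions (helper169) -/

namespace Pool.Agent.N169.P1.J2

open Pool.Agent.N979.P1 Pool.Agent.N979.P1.A Pool.Agent.N169.P1

def a2 : Fin 18 → ℚ := ![
    0, 627/12500, 44979/500000, 62729/500000, 69399/500000, 64251/500000, 29899/250000,
    34959/250000, 50239/250000, 72089/250000, 197963/500000, 63251/125000, 607373/1000000,
    171097/250000, 357237/500000, 330217/500000, 123791/250000, 11759/62500]

def b2 : Fin 18 → ℚ := ![
    618561/5000, 96061/5000, 35761/5000, 18011/5000, 15111/5000, 16281/5000, 16891/5000,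
    15971/5000, 14061/5000, 12161/5000, 5213/2500, 18231/10000, 4097/2500, 15333/10000,
    7513/5000, 3853/2500, 16199/10000, 1693/1000]

def c2l : Fin 18 → ℚ := ![
    0, 3925701/92312500, 644187/8440000, 6342341/59080000, 36706937/295400000,
    183640549/1477000000, 21131629/184625000, 39485263/369250000, 40665183/369250000,
    93453551/738500000, 29800189/184625000, 151360513/738500000, 372319401/1477000000,
    1225457/4220000, 32148243/105500000, 29322153/105500000, 21435513/105500000,
    7989393/105500000]

def e2l : Fin 18 → ℚ := ![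
    1546730993/14770000, 238163993/14770000, 86886693/14770000, 41060893/14770000,
    30201693/14770000, 30177633/14770000, 32175923/14770000, 33186103/14770000,
    32891123/14770000, 31836933/14770000, 30175823/14770000, 2046029/1055000, 3911283/2110000,
    3325471/1846250, 13193897/7385000, 26670403/14770000, 27196179/14770000, 27644383/14770000]

def c2h : Fin 18 → ℚ := ![
    0, 668232/15078125, 153483699/1930000000, 215390999/1930000000, 246410179/1930000000,
    48370391/386000000, 11161501/96500000, 5532169/48250000, 1268469/9650000,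
    31753237/193000000, 41775599/193000000, 10638853/38600000, 64745937/193000000,
    369468857/965000000, 193433031/482500000, 88710843/241250000, 262203237/965000000,
    98540367/965000000]

def e2h : Fin 18 → ℚ := ![
    2107147259/19300000, 325195259/19300000, 618063/100000, 57378859/19300000,
    43892259/19300000, 44928219/19300000, 47479169/19300000, 47655829/19300000,
    45630389/19300000, 42854799/19300000, 39621779/19300000, 36903049/19300000,
    6960549/3860000, 33549617/19300000, 8298643/4825000, 33652039/19300000, 17267163/9650000,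
    35313673/19300000]

theorem ha2 : ∀ i, alQ datQ (fAQ 3) i = a2 i := by decide +kernel

theorem hb2 : ∀ i, beQ datQ (fAQ 3) i = b2 i := by decide +kernel

theorem hcl2 : ∀ i, alQ datQ (fCQ datQ 3 (datQ.ρ 2)) i = c2l i := by decide +kernel

theorem hel2 : ∀ i, beQ datQ (fCQ datQ 3 (datQ.ρ 2)) i = e2l i := by decide +kernel

theorem hch2 : ∀ i, alQ datQ (fCQ datQ 3 (datQ.rhi RrQ 2)) i = c2h i := by decide +kernel

theorem heh2 : ∀ i, beQ datQ (fCQ datQ 3 (datQ.rhi RrQ 2)) i = e2h i := by decide +kernel

theorem tl2 : tst sV kV a2 b2 c2l e2l (lamLo 2) dlo dhi := by decide +kernel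

theorem th2 : tst sV kV a2 b2 c2h e2h (lamHi 2) dlo dhi := by decide +kernel

theorem ck2 (h : S_BND) : S_CK 2 :=
  ⟨condQ datQ 2 (datQ.ρ 2) sV kV a2 b2 c2l e2l (lamLo 2) dlo dhi hsV hkV ha2 hb2 hcl2 hel2
      tl2 h,
    condQ datQ 2 (datQ.rhi RrQ 2) sV kV a2 b2 c2h e2h (lamHi 2) dlo dhi hsV hkV ha2 hb2 hch2
      heh2 th2 h⟩

end Pool.Agent.N169.P1.J2
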