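import Pool.Agent.N169.P1.Vec

set_option autoImplicit false

/-! # Project P1 (helper979): numerical conditions (helper169) -/

namespace Pool.Agent.N169.P1.J20

open Pool.Agent.N979.P1 Pool.Agent.N979.P1.A Pool.Agent.N169.P1

def a20 : Fin 18 → ℚ := ![
    0, 3849699/62500, 44672421/1000000, 31175421/1000000, 20425451/1000000, 13196911/1000000,
    870179/100000, 289939/50000, 200627/50000, 306149/100000, 227719/100000, 900833/500000,
    1434981/1000000, 1081661/1000000, 177779/200000, 102263/200000, 76559/200000, 26327/200000]

def b20 : Fin 18 → ℚ := ![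
    1211057287/10000, -72175713/10000, -20894613/10000, -7397613/10000, -2723713/10000,
    -1080863/10000, -465093/10000, -201183/10000, -89543/10000, -48193/10000, -22893/10000,
    -11571/10000, -613/1250, -4/625, 1903/10000, 23/50, 1303/2500, 581/1000]

def c20l : Fin 18 → ℚ := ![
    0, 135495993/99109375, 982483371/634300000, 1085397001/634300000, 36887336/19821875,
    3153982233/1585750000, 13250057959/6343000000, 13708043069/6343000000,
    14018680829/6343000000, 14169872249/6343000000, 14068278429/6343000000,
    2742037269/1268600000, 65113663/31715000, 11909620351/6343000000, 10262513281/6343000000,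
    8051694601/6343000000, 5317564741/6343000000, 1873070401/6343000000]

def e20l : Fin 18 → ℚ := ![
    185909668941/63430000, 5248344941/63430000, 1754132341/63430000, 724996041/63430000,
    311962341/63430000, 127421111/63430000, 40554121/63430000, -1080889/63430000,
    -20495749/63430000, -27069289/63430000, -23792069/63430000, -15266067/63430000,
    -691727/15857500, 2496241/12686000, 1464421/3171500, 22539991/31715000, 3631228/3964375,
    2652033/2537200]

def c20h : Fin 18 → ℚ := ![
    0, 158594187/99484375, 5448485907/3183500000, 5801090057/3183500000, 1536769793/795875000,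
    3233163699/1591750000, 13458900919/6367000000, 13847213789/6367000000,
    14114981789/6367000000, 14243348009/6367000000, 14122930989/6367000000,
    13753426329/6367000000, 816073259/397937500, 2387116043/1273400000, 10283846761/6367000000,
    8063966161/6367000000, 5326751821/6367000000, 1876229641/6367000000]

def e20h : Fin 18 → ℚ := ![
    214975043829/63670000, 3516127829/63670000, 1252661629/63670000, 547453329/63670000,
    246593229/63670000, 101480399/63670000, 29391889/63670000, -5909281/63670000,
    -22644781/63670000, -28225921/63670000, -24341501/63670000, -15543771/63670000,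
    -721151/15917500, 12479669/63670000, 7333523/15917500, 22595191/31835000, 3639046/3979375,
    13288053/12734000]

theorem ha20 : ∀ i, alQ datQ (fAQ 21) i = a20 i := by decide +kernel

theorem hb20 : ∀ i, beQ datQ (fAQ 21) i = b20 i := by decide +kernel

theorem hcl20 : ∀ i, alQ datQ (fCQ datQ 21 (datQ.ρ 20)) i = c20l i := by decide +kernel

theorem hel20 : ∀ i, beQ datQ (fCQ datQ 21 (datQ.ρ 20)) i = e20l i := by decide +kernel

theorem hch20 : ∀ i, alQ datQ (fCQ datQ 21 (datQ.rhi RrQ 20)) i = c20h i := by decide +kernel

theorem heh20 : ∀ i, beQ datQ (fCQ datQ 21 (datQ.rhi RrQ 20)) i = e20h i := by decide +kernel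

theorem tl20 : tst sV kV a20 b20 c20l e20l (lamLo 20) dlo dhi := by decide +kernel

theorem th20 : tst sV kV a20 b20 c20h e20h (lamHi 20) dlo dhi := by decide +kernel

theorem ck20 (h : S_BND) : S_CK 20 :=
  ⟨condQ datQ 20 (datQ.ρ 20) sV kV a20 b20 c20l e20l (lamLo 20) dlo dhi hsV hkV ha20 hb20 hcl20 hel20
      tl20 h,
    condQ datQ 20 (datQ.rhi RrQ 20) sV kV a20 b20 c20h e20h (lamHi 20) dlo dhi hsV hkV ha20 hb20 hch20
      heh20 th20 h⟩

end Pool.Agent.N169.P1.J20
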