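import Pool.Agent.N169.P1.Vec

set_option autoImplicit false

/-! # Project P1 (helper979): numerical conditions (helper169) -/

namespace Pool.Agent.N169.P1.J3

open Pool.Agent.N979.P1 Pool.Agent.N979.P1.A Pool.Agent.N169.P1

def a3 : Fin 18 → ℚ := ![
    0, 3207/62500, 45753/500000, 62203/500000, 4053/31250, 28871/250000, 30477/250000,
    10823/62500, 16923/62500, 97937/250000, 266399/500000, 169813/250000, 411071/500000,
    187949/200000, 198239/200000, 183203/200000, 135827/200000, 51071/200000]

def b3 : Fin 18 → ℚ := ![
    1265507/10000, 196507/10000, 74707/10000, 41807/10000, 39507/10000, 42737/10000,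
    41857/10000, 37197/10000, 31097/10000, 25837/10000, 21287/10000, 89/50, 7601/5000,
    13591/10000, 6533/5000, 13603/10000, 14731/10000, 787/500]

def c3l : Fin 18 → ℚ := ![
    0, 668232/15078125, 153483699/1930000000, 215390999/1930000000, 246410179/1930000000,
    48370391/386000000, 11161501/96500000, 5532169/48250000, 1268469/9650000,
    31753237/193000000, 41775599/193000000, 10638853/38600000, 64745937/193000000,
    369468857/965000000, 193433031/482500000, 88710843/241250000, 262203237/965000000,
    98540367/965000000]

def e3l : Fin 18 → ℚ := ![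
    2107147259/19300000, 325195259/19300000, 618063/100000, 57378859/19300000,
    43892259/19300000, 44928219/19300000, 47479169/19300000, 47655829/19300000,
    45630389/19300000, 42854799/19300000, 39621779/19300000, 36903049/19300000,
    6960549/3860000, 33549617/19300000, 8298643/4825000, 33652039/19300000, 17267163/9650000,
    35313673/19300000]

def c3h : Fin 18 → ℚ := ![
    0, 1122949/24625000, 64399101/788000000, 89794401/788000000, 302698243/2364000000,
    291972011/2364000000, 69034523/591000000, 37055209/295500000, 15466963/98500000,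
    243775501/1182000000, 324495161/1182000000, 413369009/1182000000, 502134499/1182000000,
    95565587/197000000, 601955377/1182000000, 553618627/1182000000, 102393883/295500000,
    76976201/591000000]

def e3h : Fin 18 → ℚ := ![
    885459099/7880000, 410479297/23640000, 151708997/23640000, 75523097/23640000,
    20346099/7880000, 63476077/23640000, 65645107/23640000, 63799327/23640000,
    19708829/7880000, 54068057/23640000, 16286779/7880000, 14876083/7880000, 41400413/23640000,
    39448111/23640000, 202423/123125, 13185247/7880000, 2046379/1182000, 42144833/23640000]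

theorem ha3 : ∀ i, alQ datQ (fAQ 4) i = a3 i := by decide +kernel

theorem hb3 : ∀ i, beQ datQ (fAQ 4) i = b3 i := by decide +kernel

theorem hcl3 : ∀ i, alQ datQ (fCQ datQ 4 (datQ.ρ 3)) i = c3l i := by decide +kernel

theorem hel3 : ∀ i, beQ datQ (fCQ datQ 4 (datQ.ρ 3)) i = e3l i := by decide +kernel

theorem hch3 : ∀ i, alQ datQ (fCQ datQ 4 (datQ.rhi RrQ 3)) i = c3h i := by decide +kernel

theorem heh3 : ∀ i, beQ datQ (fCQ datQ 4 (datQ.rhi RrQ 3)) i = e3h i := by decide +kernel

theorem tl3 : tst sV kV a3 b3 c3l e3l (lamLo 3) dlo dhi := by decide +kernel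

theorem th3 : tst sV kV a3 b3 c3h e3h (lamHi 3) dlo dhi := by decide +kernel

theorem ck3 (h : S_BND) : S_CK 3 :=
  ⟨condQ datQ 3 (datQ.ρ 3) sV kV a3 b3 c3l e3l (lamLo 3) dlo dhi hsV hkV ha3 hb3 hcl3 hel3
      tl3 h,
    condQ datQ 3 (datQ.rhi RrQ 3) sV kV a3 b3 c3h e3h (lamHi 3) dlo dhi hsV hkV ha3 hb3 hch3
      heh3 th3 h⟩

end Pool.Agent.N169.P1.J3
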