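import Pool.Agent.N169.P1.Vec

set_option autoImplicit false

/-! # Project P1 (helper979): numerical conditions (helper169) -/

namespace Pool.Agent.N169.P1.J4

open Pool.Agent.N979.P1 Pool.Agent.N979.P1.A Pool.Agent.N169.P1

def a4 : Fin 18 → ℚ := ![
    0, 858/15625, 48609/500000, 63859/500000, 31067/250000, 14197/125000, 146791/1000000,
    234901/1000000, 371861/1000000, 531711/1000000, 717091/1000000, 912139/1000000,
    551247/500000, 1252509/1000000, 1302489/1000000, 1183069/1000000, 863029/1000000,
    321229/1000000]

def b4 : Fin 18 → ℚ := ![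
    270843/2000, 42043/2000, 16403/2000, 10303/2000, 10603/2000, 11089/2000, 10179/2000,
    8577/2000, 1373/400, 219/80, 4279/2000, 16751/10000, 1329/1000, 2247/2000, 429/400,
    5789/5000, 6551/5000, 1799/1250]

def c4l : Fin 18 → ℚ := ![
    0, 1122949/24625000, 64399101/788000000, 89794401/788000000, 302698243/2364000000,
    291972011/2364000000, 69034523/591000000, 37055209/295500000, 15466963/98500000,
    243775501/1182000000, 324495161/1182000000, 413369009/1182000000, 502134499/1182000000,
    95565587/197000000, 601955377/1182000000, 553618627/1182000000, 102393883/295500000,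
    76976201/591000000]

def e4l : Fin 18 → ℚ := ![
    885459099/7880000, 410479297/23640000, 151708997/23640000, 75523097/23640000,
    20346099/7880000, 63476077/23640000, 65645107/23640000, 63799327/23640000,
    19708829/7880000, 54068057/23640000, 16286779/7880000, 14876083/7880000, 41400413/23640000,
    39448111/23640000, 202423/123125, 13185247/7880000, 2046379/1182000, 42144833/23640000]

def c4h : Fin 18 → ℚ := ![
    0, 1359757/28937500, 15563037/185200000, 21483897/185200000, 70829039/555600000,
    13559699/111120000, 168454783/1389000000, 196845343/1389000000, 87526261/463000000,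
    176919839/694500000, 236466499/694500000, 301090891/694500000, 730350757/1389000000,
    55510859/92600000, 4357853/6945000, 79851391/138900000, 117644507/277800000,
    44089361/277800000]

def e4h : Fin 18 → ℚ := ![
    1072340769/9260000, 497508307/27780000, 185663207/27780000, 96850307/27780000,
    27662169/9260000, 86430307/27780000, 86715637/27780000, 81553717/27780000,
    24445679/9260000, 65401307/27780000, 19239289/9260000, 17187721/9260000, 46902473/27780000,
    44099401/27780000, 7217561/4630000, 14783011/9260000, 1448494/868125, 48103121/27780000]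

theorem ha4 : ∀ i, alQ datQ (fAQ 5) i = a4 i := by decide +kernel

theorem hb4 : ∀ i, beQ datQ (fAQ 5) i = b4 i := by decide +kernel

theorem hcl4 : ∀ i, alQ datQ (fCQ datQ 5 (datQ.ρ 4)) i = c4l i := by decide +kernel

theorem hel4 : ∀ i, beQ datQ (fCQ datQ 5 (datQ.ρ 4)) i = e4l i := by decide +kernel

theorem hch4 : ∀ i, alQ datQ (fCQ datQ 5 (datQ.rhi RrQ 4)) i = c4h i := by decide +kernel

theorem heh4 : ∀ i, beQ datQ (fCQ datQ 5 (datQ.rhi RrQ 4)) i = e4h i := by decide +kernel

theorem tl4 : tst sV kV a4 b4 c4l e4l (lamLo 4) dlo dhi := by decide +kernel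

theorem th4 : tst sV kV a4 b4 c4h e4h (lamHi 4) dlo dhi := by decide +kernel

theorem ck4 (h : S_BND) : S_CK 4 :=
  ⟨condQ datQ 4 (datQ.ρ 4) sV kV a4 b4 c4l e4l (lamLo 4) dlo dhi hsV hkV ha4 hb4 hcl4 hel4
      tl4 h,
    condQ datQ 4 (datQ.rhi RrQ 4) sV kV a4 b4 c4h e4h (lamHi 4) dlo dhi hsV hkV ha4 hb4 hch4
      heh4 th4 h⟩

end Pool.Agent.N169.P1.J4
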