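import Pool.Agent.N169.P1.Vec

set_option autoImplicit false

/-! # Project P1 (helper979): numerical conditions (helper169) -/

namespace Pool.Agent.N169.P1.J5

open Pool.Agent.N979.P1 Pool.Agent.N979.P1.A Pool.Agent.N169.P1

def a5 : Fin 18 → ℚ := ![
    0, 381/6250, 6681/62500, 33499/250000, 61363/500000, 63937/500000, 4989/25000, 16523/50000,
    25683/50000, 72273/100000, 96329/100000, 18962/15625, 1446603/1000000, 2579/1600,
    1635983/1000000, 1452023/1000000, 1038743/1000000, 381863/1000000]

def b5 : Fin 18 → ℚ := ![
    30067/200, 4667/200, 1883/200, 1341/200, 1439/200, 3539/500, 762/125, 2453/500, 3761/1000,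
    713/250, 519/250, 14801/10000, 2641/2500, 83/100, 4027/5000, 1171/1250, 1417/1250, 129/100]

def c5l : Fin 18 → ℚ := ![
    0, 1359757/28937500, 15563037/185200000, 21483897/185200000, 70829039/555600000,
    13559699/111120000, 168454783/1389000000, 196845343/1389000000, 87526261/463000000,
    176919839/694500000, 236466499/694500000, 301090891/694500000, 730350757/1389000000,
    55510859/92600000, 4357853/6945000, 79851391/138900000, 117644507/277800000,
    44089361/277800000]

def e5l : Fin 18 → ℚ := ![
    1072340769/9260000, 497508307/27780000, 185663207/27780000, 96850307/27780000,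
    27662169/9260000, 86430307/27780000, 86715637/27780000, 81553717/27780000,
    24445679/9260000, 65401307/27780000, 19239289/9260000, 17187721/9260000, 46902473/27780000,
    44099401/27780000, 7217561/4630000, 14783011/9260000, 1448494/868125, 48103121/27780000]

def c5h : Fin 18 → ℚ := ![
    0, 4829841/99125000, 275562579/3172000000, 375052879/3172000000, 402499239/3172000000,
    389374831/3172000000, 207768103/1586000000, 261945963/1586000000, 363769803/1586000000,
    2385661/7625000, 82837641/198250000, 420627339/793000000, 253832887/396500000,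
    57510113/79300000, 91835327/122000000, 1084562441/1586000000, 396427453/793000000,
    36959227/198250000]

def e5h : Fin 18 → ℚ := ![
    3809342207/31720000, 589448207/31720000, 222758307/31720000, 2020787/520000,
    111334807/31720000, 114317627/31720000, 110733877/31720000, 100883357/31720000,
    88155377/31720000, 76638187/31720000, 65897307/31720000, 57394757/31720000,
    3928053/2440000, 47369601/31720000, 23239321/15860000, 1921601/1268800, 3176137/1982500,
    53185721/31720000]

theorem ha5 : ∀ i, alQ datQ (fAQ 6) i = a5 i := by decide +kernel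

theorem hb5 : ∀ i, beQ datQ (fAQ 6) i = b5 i := by decide +kernel

theorem hcl5 : ∀ i, alQ datQ (fCQ datQ 6 (datQ.ρ 5)) i = c5l i := by decide +kernel

theorem hel5 : ∀ i, beQ datQ (fCQ datQ 6 (datQ.ρ 5)) i = e5l i := by decide +kernel

theorem hch5 : ∀ i, alQ datQ (fCQ datQ 6 (datQ.rhi RrQ 5)) i = c5h i := by decide +kernel

theorem heh5 : ∀ i, beQ datQ (fCQ datQ 6 (datQ.rhi RrQ 5)) i = e5h i := by decide +kernel

theorem tl5 : tst sV kV a5 b5 c5l e5l (lamLo 5) dlo dhi := by decide +kernel

theorem th5 : tst sV kV a5 b5 c5h e5h (lamHi 5) dlo dhi := by decide +kernel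

theorem ck5 (h : S_BND) : S_CK 5 :=
  ⟨condQ datQ 5 (datQ.ρ 5) sV kV a5 b5 c5l e5l (lamLo 5) dlo dhi hsV hkV ha5 hb5 hcl5 hel5
      tl5 h,
    condQ datQ 5 (datQ.rhi RrQ 5) sV kV a5 b5 c5h e5h (lamHi 5) dlo dhi hsV hkV ha5 hb5 hch5
      heh5 th5 h⟩

end Pool.Agent.N169.P1.J5
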