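import Pool.Agent.N169.P1.Vec

set_option autoImplicit false

/-! # Project P1 (helper979): numerical conditions (helper169) -/

namespace Pool.Agent.N169.P1.J6

open Pool.Agent.N979.P1 Pool.Agent.N979.P1.A Pool.Agent.N169.P1

def a6 : Fin 18 → ℚ := ![
    0, 219/3125, 7581/62500, 4453/31250, 64003/500000, 83033/500000, 72067/250000,
    117717/250000, 178037/250000, 491659/500000, 644179/500000, 398477/250000, 928459/500000,
    2014671/1000000, 1985761/1000000, 1716821/1000000, 1202111/1000000, 436031/1000000]

def b6 : Fin 18 → ℚ := ![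
    863893/5000, 133893/5000, 56293/5000, 45693/5000, 48843/5000, 22259/2500, 9037/1250,
    3481/625, 5077/1250, 14413/5000, 9493/5000, 11711/10000, 6929/10000, 298/625, 5063/10000,
    873/1250, 1887/2000, 11259/10000]

def c6l : Fin 18 → ℚ := ![
    0, 4829841/99125000, 275562579/3172000000, 375052879/3172000000, 402499239/3172000000,
    389374831/3172000000, 207768103/1586000000, 261945963/1586000000, 363769803/1586000000,
    2385661/7625000, 82837641/198250000, 420627339/793000000, 253832887/396500000,
    57510113/79300000, 91835327/122000000, 1084562441/1586000000, 396427453/793000000,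
    36959227/198250000]

def e6l : Fin 18 → ℚ := ![
    3809342207/31720000, 589448207/31720000, 222758307/31720000, 2020787/520000,
    111334807/31720000, 114317627/31720000, 110733877/31720000, 100883357/31720000,
    88155377/31720000, 76638187/31720000, 65897307/31720000, 57394757/31720000,
    3928053/2440000, 47369601/31720000, 23239321/15860000, 1921601/1268800, 3176137/1982500,
    53185721/31720000]

def c6h : Fin 18 → ℚ := ![
    0, 5646711/110781250, 320805987/3545000000, 428203887/3545000000, 450245477/3545000000,
    451317449/3545000000, 52306017/354500000, 69952569/354500000, 99317081/354500000,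
    135921259/354500000, 180595979/354500000, 28462963/44312500, 272329351/354500000,
    3051876803/3545000000, 625681471/709000000, 561899823/709000000, 406819443/709000000,
    150797439/709000000]

def e6h : Fin 18 → ℚ := ![
    890761277/7090000, 137866477/7090000, 52950577/7090000, 31470997/7090000, 29554337/7090000,
    29505611/7090000, 27540057/7090000, 24331593/7090000, 20661029/7090000, 17478057/7090000,
    14595817/7090000, 772037/443125, 26824603/17725000, 9829613/7090000, 48367141/35450000,
    50645057/35450000, 54337447/35450000, 3586583/2215625]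

theorem ha6 : ∀ i, alQ datQ (fAQ 7) i = a6 i := by decide +kernel

theorem hb6 : ∀ i, beQ datQ (fAQ 7) i = b6 i := by decide +kernel

theorem hcl6 : ∀ i, alQ datQ (fCQ datQ 7 (datQ.ρ 6)) i = c6l i := by decide +kernel

theorem hel6 : ∀ i, beQ datQ (fCQ datQ 7 (datQ.ρ 6)) i = e6l i := by decide +kernel

theorem hch6 : ∀ i, alQ datQ (fCQ datQ 7 (datQ.rhi RrQ 6)) i = c6h i := by decide +kernel

theorem heh6 : ∀ i, beQ datQ (fCQ datQ 7 (datQ.rhi RrQ 6)) i = e6h i := by decide +kernel

theorem tl6 : tst sV kV a6 b6 c6l e6l (lamLo 6) dlo dhi := by decide +kernel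

theorem th6 : tst sV kV a6 b6 c6h e6h (lamHi 6) dlo dhi := by decide +kernel

theorem ck6 (h : S_BND) : S_CK 6 :=
  ⟨condQ datQ 6 (datQ.ρ 6) sV kV a6 b6 c6l e6l (lamLo 6) dlo dhi hsV hkV ha6 hb6 hcl6 hel6
      tl6 h,
    condQ datQ 6 (datQ.rhi RrQ 6) sV kV a6 b6 c6h e6h (lamHi 6) dlo dhi hsV hkV ha6 hb6 hch6
      heh6 th6 h⟩

end Pool.Agent.N169.P1.J6
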