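import Pool.Agent.N169.P1.Vec

set_option autoImplicit false

/-! # Project P1 (helper979): numerical conditions (helper169) -/

namespace Pool.Agent.N169.P1.J7

open Pool.Agent.N979.P1 Pool.Agent.N979.P1.A Pool.Agent.N169.P1

def a7 : Fin 18 → ℚ := ![
    0, 261/3125, 141699/1000000, 153999/1000000, 148939/1000000, 242087/1000000,
    428821/1000000, 676541/1000000, 991261/1000000, 1338101/1000000, 1711961/1000000,
    2064971/1000000, 1168143/500000, 613819/250000, 585007/250000, 490927/250000,
    167711/125000, 119857/250000]

def b7 : Fin 18 → ℚ := ![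
    128628/625, 19878/625, 35437/2500, 16181/1250, 8228/625, 55239/5000, 42449/5000,
    31189/5000, 10677/2500, 6907/2500, 973/625, 7163/10000, 223/1000, 3/50, 111/625, 279/625,
    3713/5000, 9479/10000]

def c7l : Fin 18 → ℚ := ![
    0, 5646711/110781250, 320805987/3545000000, 428203887/3545000000, 450245477/3545000000,
    451317449/3545000000, 52306017/354500000, 69952569/354500000, 99317081/354500000,
    135921259/354500000, 180595979/354500000, 28462963/44312500, 272329351/354500000,
    3051876803/3545000000, 625681471/709000000, 561899823/709000000, 406819443/709000000,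
    150797439/709000000]

def e7l : Fin 18 → ℚ := ![
    890761277/7090000, 137866477/7090000, 52950577/7090000, 31470997/7090000, 29554337/7090000,
    29505611/7090000, 27540057/7090000, 24331593/7090000, 20661029/7090000, 17478057/7090000,
    14595817/7090000, 772037/443125, 26824603/17725000, 9829613/7090000, 48367141/35450000,
    50645057/35450000, 54337447/35450000, 3586583/2215625]

def c7h : Fin 18 → ℚ := ![
    0, 2188477/40593750, 8237423/86600000, 32160769/259800000, 11170489/86600000,
    536532073/3897000000, 337002581/1948500000, 468834061/1948500000, 223682447/649500000,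
    101679119/216500000, 1204285031/1948500000, 187744177/243562500, 1772833091/1948500000,
    87025199/86600000, 1317365737/1299000000, 3500724331/3897000000, 2506371391/3897000000,
    922745851/3897000000]

def e7h : Fin 18 → ℚ := ![
    5178239281/38970000, 801285281/38970000, 34960909/4330000, 67640227/12990000,
    64703927/12990000, 186416311/38970000, 167584381/38970000, 143615021/38970000,
    118338361/38970000, 97115341/38970000, 8717669/4330000, 446419/270625, 9072361/6495000,
    9871853/7794000, 48992293/38970000, 10443277/7794000, 56951399/38970000, 3795121/2435625]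

theorem ha7 : ∀ i, alQ datQ (fAQ 8) i = a7 i := by decide +kernel

theorem hb7 : ∀ i, beQ datQ (fAQ 8) i = b7 i := by decide +kernel

theorem hcl7 : ∀ i, alQ datQ (fCQ datQ 8 (datQ.ρ 7)) i = c7l i := by decide +kernel

theorem hel7 : ∀ i, beQ datQ (fCQ datQ 8 (datQ.ρ 7)) i = e7l i := by decide +kernel

theorem hch7 : ∀ i, alQ datQ (fCQ datQ 8 (datQ.rhi RrQ 7)) i = c7h i := by decide +kernel

theorem heh7 : ∀ i, beQ datQ (fCQ datQ 8 (datQ.rhi RrQ 7)) i = e7h i := by decide +kernel

theorem tl7 : tst sV kV a7 b7 c7l e7l (lamLo 7) dlo dhi := by decide +kernel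

theorem th7 : tst sV kV a7 b7 c7h e7h (lamHi 7) dlo dhi := by decide +kernel

theorem ck7 (h : S_BND) : S_CK 7 :=
  ⟨condQ datQ 7 (datQ.ρ 7) sV kV a7 b7 c7l e7l (lamLo 7) dlo dhi hsV hkV ha7 hb7 hcl7 hel7
      tl7 h,
    condQ datQ 7 (datQ.rhi RrQ 7) sV kV a7 b7 c7h e7h (lamHi 7) dlo dhi hsV hkV ha7 hb7 hch7
      heh7 th7 h⟩

end Pool.Agent.N169.P1.J7
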