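import Pool.Agent.N169.P1.Vec

set_option autoImplicit false

/-! # Project P1 (helper979): numerical conditions (helper169) -/

namespace Pool.Agent.N169.P1.J8

open Pool.Agent.N979.P1 Pool.Agent.N979.P1.A Pool.Agent.N169.P1

def a8 : Fin 18 → ℚ := ![
    0, 6459/62500, 8487/50000, 8597/50000, 10069/50000, 94301/250000, 161753/250000,
    244693/250000, 346333/250000, 909441/500000, 282269/125000, 263947/100000, 57691/20000,
    365259/125000, 1340447/500000, 1087957/500000, 361751/250000, 127181/250000]

def b8 : Fin 18 → ℚ := ![
    2544557/10000, 391557/10000, 190357/10000, 188157/10000, 175357/10000, 135397/10000,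
    98437/10000, 68277/10000, 42867/10000, 24017/10000, 9847/10000, 48/625, -461/1250,
    -2101/5000, -1741/10000, 933/5000, 5337/10000, 7571/10000]

def c8l : Fin 18 → ℚ := ![
    0, 2188477/40593750, 8237423/86600000, 32160769/259800000, 11170489/86600000,
    536532073/3897000000, 337002581/1948500000, 468834061/1948500000, 223682447/649500000,
    101679119/216500000, 1204285031/1948500000, 187744177/243562500, 1772833091/1948500000,
    87025199/86600000, 1317365737/1299000000, 3500724331/3897000000, 2506371391/3897000000,
    922745851/3897000000]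

def e8l : Fin 18 → ℚ := ![
    5178239281/38970000, 801285281/38970000, 34960909/4330000, 67640227/12990000,
    64703927/12990000, 186416311/38970000, 167584381/38970000, 143615021/38970000,
    118338361/38970000, 97115341/38970000, 8717669/4330000, 446419/270625, 9072361/6495000,
    9871853/7794000, 48992293/38970000, 10443277/7794000, 56951399/38970000, 3795121/2435625]

def c8h : Fin 18 → ℚ := ![
    0, 61101/1057250, 85407543/845800000, 107899123/845800000, 113906033/845800000,
    661763801/4229000000, 444406573/2114500000, 631310213/2114500000, 901012453/2114500000,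
    1217046483/2114500000, 1579138263/2114500000, 485026359/528625000, 2251668391/2114500000,
    4886261859/4229000000, 4842154019/4229000000, 4223127779/4229000000, 2986776719/4229000000,
    1091642219/4229000000]

def e8h : Fin 18 → ℚ := ![
    1204606441/8458000, 186256441/8458000, 75569341/8458000, 53077761/8458000,
    50466061/8458000, 46273623/8458000, 40053093/8458000, 33256597/8458000, 26514041/8458000,
    21017797/8458000, 3269129/1691600, 4033707/2643125, 212839/169160, 47964201/42290000,
    48414281/42290000, 52835897/42290000, 58723283/42290000, 15808877/10572500]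

theorem ha8 : ∀ i, alQ datQ (fAQ 9) i = a8 i := by decide +kernel

theorem hb8 : ∀ i, beQ datQ (fAQ 9) i = b8 i := by decide +kernel

theorem hcl8 : ∀ i, alQ datQ (fCQ datQ 9 (datQ.ρ 8)) i = c8l i := by decide +kernel

theorem hel8 : ∀ i, beQ datQ (fCQ datQ 9 (datQ.ρ 8)) i = e8l i := by decide +kernel

theorem hch8 : ∀ i, alQ datQ (fCQ datQ 9 (datQ.rhi RrQ 8)) i = c8h i := by decide +kernel

theorem heh8 : ∀ i, beQ datQ (fCQ datQ 9 (datQ.rhi RrQ 8)) i = e8h i := by decide +kernel

theorem tl8 : tst sV kV a8 b8 c8l e8l (lamLo 8) dlo dhi := by decide +kernel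

theorem th8 : tst sV kV a8 b8 c8h e8h (lamHi 8) dlo dhi := by decide +kernel

theorem ck8 (h : S_BND) : S_CK 8 :=
  ⟨condQ datQ 8 (datQ.ρ 8) sV kV a8 b8 c8l e8l (lamLo 8) dlo dhi hsV hkV ha8 hb8 hcl8 hel8
      tl8 h,
    condQ datQ 8 (datQ.rhi RrQ 8) sV kV a8 b8 c8h e8h (lamHi 8) dlo dhi hsV hkV ha8 hb8 hch8
      heh8 th8 h⟩

end Pool.Agent.N169.P1.J8
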