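import Pool.Agent.N169.P1.Vec

set_option autoImplicit false

/-! # Project P1 (helper979): numerical conditions (helper169) -/

namespace Pool.Agent.N169.P1.J9

open Pool.Agent.N979.P1 Pool.Agent.N979.P1.A Pool.Agent.N169.P1

def a9 : Fin 18 → ℚ := ![
    0, 417/3125, 104109/500000, 103809/500000, 157169/500000, 303469/500000, 985443/1000000,
    1425333/1000000, 1941333/1000000, 2466193/1000000, 2954443/1000000, 3328537/1000000,
    3497277/1000000, 425069/125000, 748267/250000, 586357/250000, 379087/250000, 32743/62500]

def b9 : Fin 18 → ℚ := ![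
    1641311/5000, 251311/5000, 138011/5000, 138311/5000, 115111/5000, 81861/5000, 6992/625,
    35941/5000, 2477/625, 4203/2500, 531/5000, -1569/2000, -10913/10000, -2397/2500, -543/1000,
    -201/2500, 393/1250, 5507/10000]

def c9l : Fin 18 → ℚ := ![
    0, 61101/1057250, 85407543/845800000, 107899123/845800000, 113906033/845800000,
    661763801/4229000000, 444406573/2114500000, 631310213/2114500000, 901012453/2114500000,
    1217046483/2114500000, 1579138263/2114500000, 485026359/528625000, 2251668391/2114500000,
    4886261859/4229000000, 4842154019/4229000000, 4223127779/4229000000, 2986776719/4229000000,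
    1091642219/4229000000]

def e9l : Fin 18 → ℚ := ![
    1204606441/8458000, 186256441/8458000, 75569341/8458000, 53077761/8458000,
    50466061/8458000, 46273623/8458000, 40053093/8458000, 33256597/8458000, 26514041/8458000,
    21017797/8458000, 3269129/1691600, 4033707/2643125, 212839/169160, 47964201/42290000,
    48414281/42290000, 52835897/42290000, 58723283/42290000, 15808877/10572500]

def c9h : Fin 18 → ℚ := ![
    0, 119071/1891250, 32772353/302600000, 120771439/907800000, 133394989/907800000,
    849914581/4539000000, 298575119/1134750000, 213059207/567375000, 300479767/567375000,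
    799653199/1134750000, 63658654/70921875, 2456028671/2269500000, 1396873163/1134750000,
    5940432979/4539000000, 1923335033/1513000000, 1650070153/1513000000, 1152281533/1513000000,
    418015833/1513000000]

def e9h : Fin 18 → ℚ := ![
    93875267/605200, 43483801/1815600, 6178847/605200, 2809133/363120, 152329/21360,
    18808129/3026000, 46989157/9078000, 37713281/9078000, 386283/121040, 22060141/9078000,
    16411489/9078000, 10351227/7565000, 622834/567375, 14997307/15130000, 46730981/45390000,
    52586657/45390000, 59697923/45390000, 32471339/22695000]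

theorem ha9 : ∀ i, alQ datQ (fAQ 10) i = a9 i := by decide +kernel

theorem hb9 : ∀ i, beQ datQ (fAQ 10) i = b9 i := by decide +kernel

theorem hcl9 : ∀ i, alQ datQ (fCQ datQ 10 (datQ.ρ 9)) i = c9l i := by decide +kernel

theorem hel9 : ∀ i, beQ datQ (fCQ datQ 10 (datQ.ρ 9)) i = e9l i := by decide +kernel

theorem hch9 : ∀ i, alQ datQ (fCQ datQ 10 (datQ.rhi RrQ 9)) i = c9h i := by decide +kernel

theorem heh9 : ∀ i, beQ datQ (fCQ datQ 10 (datQ.rhi RrQ 9)) i = e9h i := by decide +kernel

theorem tl9 : tst sV kV a9 b9 c9l e9l (lamLo 9) dlo dhi := by decide +kernel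

theorem th9 : tst sV kV a9 b9 c9h e9h (lamHi 9) dlo dhi := by decide +kernel

theorem ck9 (h : S_BND) : S_CK 9 :=
  ⟨condQ datQ 9 (datQ.ρ 9) sV kV a9 b9 c9l e9l (lamLo 9) dlo dhi hsV hkV ha9 hb9 hcl9 hel9
      tl9 h,
    condQ datQ 9 (datQ.rhi RrQ 9) sV kV a9 b9 c9h e9h (lamHi 9) dlo dhi hsV hkV ha9 hb9 hch9
      heh9 th9 h⟩

end Pool.Agent.N169.P1.J9
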