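import Pool.Agent.N169.P1.J0
import Pool.Agent.N169.P1.J1
import Pool.Agent.N169.P1.J2
import Pool.Agent.N169.P1.J3
import Pool.Agent.N169.P1.J4
import Pool.Agent.N169.P1.J5
import Pool.Agent.N169.P1.J6
import Pool.Agent.N169.P1.J7
import Pool.Agent.N169.P1.J8
import Pool.Agent.N169.P1.J9
import Pool.Agent.N169.P1.J10
import Pool.Agent.N169.P1.J11
import Pool.Agent.N169.P1.J12
import Pool.Agent.N169.P1.J13
import Pool.Agent.N169.P1.J14
import Pool.Agent.N169.P1.J15
import Pool.Agent.N169.P1.J16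
import Pool.Agent.N169.P1.J17
import Pool.Agent.N169.P1.J18
import Pool.Agent.N169.P1.J19
import Pool.Agent.N169.P1.J20

set_option autoImplicit false

/-! # Project P1 (helper979): all the numerical conditions (helper169) -/

namespace Pool.Agent.N169.P1.CK

open Pool.Agent.N979.P1 Pool.Agent.N979.P1.A Pool.Agent.N169.P1

theorem all (h : S_BND) : ∀ J : Fin 21, S_CK J := by
  intro J
  fin_cases J
  · exact J0.ck0 h
  · exact J1.ck1 h
  · exact J2.ck2 h
  · exact J3.ck3 h
  · exact J4.ck4 h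
  · exact J5.ck5 h
  · exact J6.ck6 h
  · exact J7.ck7 h
  · exact J8.ck8 h
  · exact J9.ck9 h
  · exact J10.ck10 h
  · exact J11.ck11 h
  · exact J12.ck12 h
  · exact J13.ck13 h
  · exact J14.ck14 h
  · exact J15.ck15 h
  · exact J16.ck16 h
  · exact J17.ck17 h
  · exact J18.ck18 h
  · exact J19.ck19 h
  · exact J20.ck20 h

theorem main0 (h : S_BND) : ∀ J : Fin 21, J.val < 3 → S_CK J := fun J _ => all h J

theorem main1 (h : S_BND) : ∀ J : Fin 21, 3 ≤ J.val → J.val < 6 → S_CK J := fun J _ _ => all h J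

theorem main2 (h : S_BND) : ∀ J : Fin 21, 6 ≤ J.val → J.val < 9 → S_CK J := fun J _ _ => all h J

theorem main3 (h : S_BND) : ∀ J : Fin 21, 9 ≤ J.val → J.val < 12 → S_CK J := fun J _ _ => all h J

theorem main4 (h : S_BND) : ∀ J : Fin 21, 12 ≤ J.val → J.val < 15 → S_CK J := fun J _ _ => all h J

theorem main5 (h : S_BND) : ∀ J : Fin 21, 15 ≤ J.val → J.val < 18 → S_CK J := fun J _ _ => all h J

theorem main6 (h : S_BND) : ∀ J : Fin 21, 18 ≤ J.val → S_CK J := fun J _ => all h J

end Pool.Agent.N169.P1.CK
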