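import Pool.Agent.N979.P1.StmQ

set_option autoImplicit false

/-!
# Project P1 (helper979): a computable test for the numerical conditions (helper169)
-/

namespace Pool.Agent.N169.P1

open Pool.Agent.N979.P1

/-! ### the coefficients -/

def alQ {N L : ℕ} (D : DatQ N L) (f : Fin N → ℚ) (l : Fin (L + 1)) : ℚ :=
  ∑ j, f j * ∑ i : Fin L, if i.val < l.val then D.m j i * D.t i else 0

def beQ {N L : ℕ} (D : DatQ N L) (f : Fin N → ℚ) (l : Fin (L + 1)) : ℚ :=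
  D.ka + ∑ j, f j * (D.m0 j + ∑ i : Fin L, if l.val ≤ i.val then D.m j i else 0)

def fAQ {N : ℕ} (J : ℕ) (j : Fin N) : ℚ := if j.val < J then 1 else 0

def fCQ {N L : ℕ} (D : DatQ N L) (J : ℕ) (r : ℚ) (j : Fin N) : ℚ :=
  if j.val < J then 1 - D.ρ j / r else 0

theorem al_cast {N L : ℕ} (D : DatQ N L) (f : Fin N → ℚ) (g : Fin N → ℝ)
    (hg : ∀ j, g j = ((f j : ℚ) : ℝ)) (l : Fin (L + 1)) :
    D.toDat.al g l = ((alQ D f l : ℚ) : ℝ) := by
  unfold Dat.al alQ DatQ.toDat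
  rw [Rat.cast_sum]
  refine Finset.sum_congr rfl (fun j _ => ?_)
  rw [Rat.cast_mul, Rat.cast_sum, hg]
  congr 1
  refine Finset.sum_congr rfl (fun i _ => ?_)
  split_ifs
  · rw [Rat.cast_mul]
  · rw [Rat.cast_zero]

theorem be_cast {N L : ℕ} (D : DatQ N L) (f : Fin N → ℚ) (g : Fin N → ℝ)
    (hg : ∀ j, g j = ((f j : ℚ) : ℝ)) (l : Fin (L + 1)) :
    D.toDat.be g l = ((beQ D f l : ℚ) : ℝ) := by
  unfold Dat.be beQ DatQ.toDat
  rw [Rat.cast_add, Rat.cast_sum]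
  congr 1
  refine Finset.sum_congr rfl (fun j _ => ?_)
  rw [Rat.cast_mul, Rat.cast_add, Rat.cast_sum, hg]
  congr 2
  refine Finset.sum_congr rfl (fun i _ => ?_)
  split_ifs
  · rfl
  · rw [Rat.cast_zero]

theorem fA_cast {N : ℕ} (J : ℕ) (j : Fin N) : (fA J j : ℝ) = ((fAQ J j : ℚ) : ℝ) := by
  unfold fA fAQ
  split_ifs
  · rw [Rat.cast_one]
  · rw [Rat.cast_zero]

theorem fC_cast {N L : ℕ} (D : DatQ N L) (J : ℕ) (r : ℚ) (j : Fin N) :
    fC D.toDat J (r : ℝ) j = ((fCQ D J r j : ℚ) : ℝ) := by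
  unfold fC fCQ DatQ.toDat
  split_ifs
  · rw [Rat.cast_sub, Rat.cast_one, Rat.cast_div]
  · rw [Rat.cast_zero]

/-! ### the sectors -/

def loQ {L : ℕ} (t : Fin L → ℚ) (l : Fin (L + 1)) : ℚ × ℚ :=
  if h : 0 < l.val then
    (t ⟨l.val - 1, by omega⟩ / (1 + t ⟨l.val - 1, by omega⟩ ^ 2),
      t ⟨l.val - 1, by omega⟩ ^ 2 / (1 + t ⟨l.val - 1, by omega⟩ ^ 2))
  else (0, 0)

def upQ {L : ℕ} (t : Fin L → ℚ) (l : Fin (L + 1)) : ℚ × ℚ :=
  if h : l.val < L then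
    (t ⟨l.val, h⟩ / (1 + t ⟨l.val, h⟩ ^ 2), t ⟨l.val, h⟩ ^ 2 / (1 + t ⟨l.val, h⟩ ^ 2))
  else (0, 1)

/-- the difference of `sin · cos` at the ends -/
def sQ {L : ℕ} (t : Fin L → ℚ) (l : Fin (L + 1)) : ℚ := (upQ t l).1 - (loQ t l).1

/-- the difference of `sin²` at the ends -/
def kQ {L : ℕ} (t : Fin L → ℚ) (l : Fin (L + 1)) : ℚ := (upQ t l).2 - (loQ t l).2

theorem lo_cast {L : ℕ} (t : Fin L → ℚ) (l : Fin (L + 1)) :
    (lo3 (fun i => (t i : ℝ)) l).2.1 = (((loQ t l).1 : ℚ) : ℝ) ∧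
    (lo3 (fun i => (t i : ℝ)) l).2.2 = (((loQ t l).2 : ℚ) : ℝ) := by
  unfold lo3 loQ
  split_ifs
  · constructor <;> push_cast <;> rfl
  · constructor <;> push_cast <;> rfl

theorem up_cast {L : ℕ} (t : Fin L → ℚ) (l : Fin (L + 1)) :
    (up3 (fun i => (t i : ℝ)) l).2.1 = (((upQ t l).1 : ℚ) : ℝ) ∧
    (up3 (fun i => (t i : ℝ)) l).2.2 = (((upQ t l).2 : ℚ) : ℝ) := by
  unfold up3 upQ
  split_ifs
  · constructor <;> push_cast <;> rfl
  · constructor <;> push_cast <;> rfl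

theorem cc_eq {L : ℕ} (t : Fin L → ℚ) (l : Fin (L + 1)) :
    Icc2 (fun i => (t i : ℝ)) l = (Dl (fun i => (t i : ℝ)) l + ((sQ t l : ℚ) : ℝ)) / 2 := by
  unfold Icc2 sQ
  rw [(lo_cast t l).1, (up_cast t l).1, Rat.cast_sub]

theorem ss_eq {L : ℕ} (t : Fin L → ℚ) (l : Fin (L + 1)) :
    Iss2 (fun i => (t i : ℝ)) l = (Dl (fun i => (t i : ℝ)) l - ((sQ t l : ℚ) : ℝ)) / 2 := by
  unfold Iss2 sQ
  rw [(lo_cast t l).1, (up_cast t l).1, Rat.cast_sub]

theorem cs_eq {L : ℕ} (t : Fin L → ℚ) (l : Fin (L + 1)) :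
    Ics2 (fun i => (t i : ℝ)) l = ((kQ t l : ℚ) : ℝ) / 2 := by
  unfold Ics2 kQ
  rw [(lo_cast t l).2, (up_cast t l).2, Rat.cast_sub]

/-! ### interval arithmetic -/

/-- `x` lies in the interval -/
def In (x : ℝ) (i : ℚ × ℚ) : Prop := ((i.1 : ℚ) : ℝ) ≤ x ∧ x ≤ ((i.2 : ℚ) : ℝ)

def iadd (i j : ℚ × ℚ) : ℚ × ℚ := (i.1 + j.1, i.2 + j.2)

def isub (i j : ℚ × ℚ) : ℚ × ℚ := (i.1 - j.2, i.2 - j.1)

def imul (i j : ℚ × ℚ) : ℚ × ℚ :=
  (min (min (i.1 * j.1) (i.1 * j.2)) (min (i.2 * j.1) (i.2 * j.2)),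
    max (max (i.1 * j.1) (i.1 * j.2)) (max (i.2 * j.1) (i.2 * j.2)))

/-- the interval of `c0 + c1 * d`, `d` in `[lo, hi]` -/
def iaff (c0 c1 lo hi : ℚ) : ℚ × ℚ :=
  if 0 ≤ c1 then (c0 + c1 * lo, c0 + c1 * hi) else (c0 + c1 * hi, c0 + c1 * lo)

theorem In.add {x y : ℝ} {i j : ℚ × ℚ} (hx : In x i) (hy : In y j) : In (x + y) (iadd i j) := by
  obtain ⟨a, b⟩ := hx
  obtain ⟨c, d⟩ := hy
  unfold In iadd
  push_cast
  constructor <;> linarith

theorem In.sub {x y : ℝ} {i j : ℚ × ℚ} (hx : In x i) (hy : In y j) : In (x - y) (isub i j) := by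
  obtain ⟨a, b⟩ := hx
  obtain ⟨c, d⟩ := hy
  unfold In isub
  push_cast
  constructor <;> linarith

theorem mul_bd {a b c d x y : ℝ} (h1 : a ≤ x) (h2 : x ≤ b) (h3 : c ≤ y) (h4 : y ≤ d) :
    min (min (a * c) (a * d)) (min (b * c) (b * d)) ≤ x * y ∧
      x * y ≤ max (max (a * c) (a * d)) (max (b * c) (b * d)) := by
  have k1 : min (x * c) (x * d) ≤ x * y := by
    rcases le_total 0 x with h | h
    · exact (min_le_left _ _).trans (mul_le_mul_of_nonneg_left h3 h)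
    · exact (min_le_right _ _).trans (mul_le_mul_of_nonpos_left h4 h)
  have k2 : x * y ≤ max (x * c) (x * d) := by
    rcases le_total 0 x with h | h
    · exact (mul_le_mul_of_nonneg_left h4 h).trans (le_max_right _ _)
    · exact (mul_le_mul_of_nonpos_left h3 h).trans (le_max_left _ _)
  have k3 : ∀ z : ℝ, min (a * z) (b * z) ≤ x * z ∧ x * z ≤ max (a * z) (b * z) := by
    intro z
    rcases le_total 0 z with h | h
    · exact ⟨(min_le_left _ _).trans (mul_le_mul_of_nonneg_right h1 h),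
        (mul_le_mul_of_nonneg_right h2 h).trans (le_max_right _ _)⟩
    · exact ⟨(min_le_right _ _).trans (mul_le_mul_of_nonpos_right h2 h),
        (mul_le_mul_of_nonpos_right h1 h).trans (le_max_left _ _)⟩
  constructor
  · refine le_trans ?_ k1
    refine le_min ?_ ?_
    · refine le_trans ?_ (k3 c).1
      exact le_min ((min_le_left _ _).trans (min_le_left _ _))
        ((min_le_right _ _).trans (min_le_left _ _))
    · refine le_trans ?_ (k3 d).1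
      exact le_min ((min_le_left _ _).trans (min_le_right _ _))
        ((min_le_right _ _).trans (min_le_right _ _))
  · refine k2.trans ?_
    refine max_le ?_ ?_
    · refine (k3 c).2.trans ?_
      exact max_le ((le_max_left _ _).trans (le_max_left _ _))
        ((le_max_left _ _).trans (le_max_right _ _))
    · refine (k3 d).2.trans ?_
      exact max_le ((le_max_right _ _).trans (le_max_left _ _))
        ((le_max_right _ _).trans (le_max_right _ _))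

theorem In.mul {x y : ℝ} {i j : ℚ × ℚ} (hx : In x i) (hy : In y j) : In (x * y) (imul i j) := by
  obtain ⟨a, b⟩ := hx
  obtain ⟨c, d⟩ := hy
  unfold In imul
  push_cast
  exact mul_bd a b c d

theorem In.aff {d : ℝ} {lo hi : ℚ} (c0 c1 : ℚ) (h1 : ((lo : ℚ) : ℝ) ≤ d) (h2 : d ≤ ((hi : ℚ) : ℝ)) :
    In ((c0 : ℝ) + (c1 : ℝ) * d) (iaff c0 c1 lo hi) := by
  unfold In iaff
  split_ifs with h
  · have h' : (0 : ℝ) ≤ (c1 : ℝ) := by exact_mod_cast h
    push_cast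
    constructor
    · linarith [mul_le_mul_of_nonneg_left h1 h']
    · linarith [mul_le_mul_of_nonneg_left h2 h']
  · have h' : (c1 : ℝ) ≤ 0 := by exact_mod_cast (not_le.1 h).le
    push_cast
    constructor
    · linarith [mul_le_mul_of_nonpos_left h2 h']
    · linarith [mul_le_mul_of_nonpos_left h1 h']

/-- the sum of the intervals of `c0 i + c1 i * d i` -/
def isum {n : ℕ} (c0 c1 lo hi : Fin n → ℚ) : ℚ × ℚ :=
  (∑ i, (iaff (c0 i) (c1 i) (lo i) (hi i)).1, ∑ i, (iaff (c0 i) (c1 i) (lo i) (hi i)).2)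

theorem In.sum {n : ℕ} (c0 c1 lo hi : Fin n → ℚ) (d : Fin n → ℝ)
    (h : ∀ i, ((lo i : ℚ) : ℝ) ≤ d i ∧ d i ≤ ((hi i : ℚ) : ℝ)) :
    In (∑ i, ((c0 i : ℝ) + (c1 i : ℝ) * d i)) (isum c0 c1 lo hi) := by
  unfold isum In
  simp only [Rat.cast_sum]
  constructor
  · exact Finset.sum_le_sum (fun i _ => (In.aff (c0 i) (c1 i) (h i).1 (h i).2).1)
  · exact Finset.sum_le_sum (fun i _ => (In.aff (c0 i) (c1 i) (h i).1 (h i).2).2)

/-! ### the test -/

def piLo : ℚ := 31415926535897932384 / 10000000000000000000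

def piHi : ℚ := 31415926535897932385 / 10000000000000000000

/-- the final test with the six intervals -/
def fin6 (x00 x01 x11 y00 y01 y11 : ℚ × ℚ) : Prop :=
  (iadd (iadd (imul x00 y00) (imul (2, 2) (imul x01 y01))) (imul x11 y11)).2 ≤ 2 * (piLo * piLo) ∧
  0 ≤ (iadd (iadd (imul x00 y00) (imul (2, 2) (imul x01 y01))) (imul x11 y11)).2 ∧
  0 ≤ (piLo * piLo) * (piLo * piLo) - (piHi * piHi) *
    (iadd (iadd (imul x00 y00) (imul (2, 2) (imul x01 y01))) (imul x11 y11)).2 +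
    (imul (isub (imul x00 x11) (imul x01 x01)) (isub (imul y00 y11) (imul y01 y01))).1

instance (x00 x01 x11 y00 y01 y11 : ℚ × ℚ) : Decidable (fin6 x00 x01 x11 y00 y01 y11) := by
  unfold fin6; infer_instance

theorem fin6_sound {X00 X01 X11 Y00 Y01 Y11 : ℝ} {x00 x01 x11 y00 y01 y11 : ℚ × ℚ}
    (h : fin6 x00 x01 x11 y00 y01 y11) (h1 : In X00 x00) (h2 : In X01 x01) (h3 : In X11 x11)
    (h4 : In Y00 y00) (h5 : In Y01 y01) (h6 : In Y11 y11) :
    X00 * Y00 + 2 * (X01 * Y01) + X11 * Y11 ≤ 2 * Real.pi ^ 2 ∧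
    0 ≤ Real.pi ^ 4 - Real.pi ^ 2 * (X00 * Y00 + 2 * (X01 * Y01) + X11 * Y11) +
      (X00 * X11 - X01 ^ 2) * (Y00 * Y11 - Y01 ^ 2) := by
  have h22 : In (2 : ℝ) (2, 2) := by unfold In; norm_num
  have hT := ((h1.mul h4).add (h22.mul (h2.mul h5))).add (h3.mul h6)
  have hP := ((h1.mul h3).sub (h2.mul h2)).mul ((h4.mul h6).sub (h5.mul h5))
  unfold fin6 at h
  set T := iadd (iadd (imul x00 y00) (imul (2, 2) (imul x01 y01))) (imul x11 y11) with hTd
  set P := imul (isub (imul x00 x11) (imul x01 x01)) (isub (imul y00 y11) (imul y01 y01)) with hPd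
  obtain ⟨g1, g2, g3⟩ := h
  obtain ⟨-, hT2⟩ := hT
  obtain ⟨hP1, -⟩ := hP
  have g1' : ((T.2 : ℚ) : ℝ) ≤ 2 * ((piLo : ℝ) * (piLo : ℝ)) := by exact_mod_cast g1
  have g2' : (0 : ℝ) ≤ ((T.2 : ℚ) : ℝ) := by exact_mod_cast g2
  have g3' : (0 : ℝ) ≤ ((piLo : ℝ) * (piLo : ℝ)) * ((piLo : ℝ) * (piLo : ℝ)) -
    ((piHi : ℝ) * (piHi : ℝ)) * ((T.2 : ℚ) : ℝ) + ((P.1 : ℚ) : ℝ) := by exact_mod_cast g3
  have e1 : (piLo : ℝ) ≤ Real.pi := by
    have := Real.pi_gt_d20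
    unfold piLo
    push_cast
    norm_num at this ⊢
    linarith
  have e2 : Real.pi ≤ (piHi : ℝ) := by
    have := Real.pi_lt_d20
    unfold piHi
    push_cast
    norm_num at this ⊢
    linarith
  have e0 : (0 : ℝ) ≤ (piLo : ℝ) := by unfold piLo; norm_num
  have e3 : (piLo : ℝ) * (piLo : ℝ) ≤ Real.pi ^ 2 := by rw [sq]; exact mul_le_mul e1 e1 e0 Real.pi_pos.le
  have e4 : Real.pi ^ 2 ≤ (piHi : ℝ) * (piHi : ℝ) := by
    rw [sq]; exact mul_le_mul e2 e2 Real.pi_pos.le (Real.pi_pos.le.trans e2)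
  have e5 : ((piLo : ℝ) * (piLo : ℝ)) * ((piLo : ℝ) * (piLo : ℝ)) ≤ Real.pi ^ 4 := by
    have : Real.pi ^ 4 = Real.pi ^ 2 * Real.pi ^ 2 := by ring
    rw [this]
    exact mul_le_mul e3 e3 (mul_nonneg e0 e0) (sq_nonneg _)
  constructor
  · linarith
  · have e6 : Real.pi ^ 2 * (X00 * Y00 + 2 * (X01 * Y01) + X11 * Y11) ≤
        ((piHi : ℝ) * (piHi : ℝ)) * ((T.2 : ℚ) : ℝ) := by
      calc Real.pi ^ 2 * (X00 * Y00 + 2 * (X01 * Y01) + X11 * Y11) ≤ Real.pi ^ 2 * ((T.2 : ℚ) : ℝ) :=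
            mul_le_mul_of_nonneg_left hT2 (sq_nonneg _)
        _ ≤ _ := mul_le_mul_of_nonneg_right e4 g2'
    rw [sq X01, sq Y01]
    linarith

/-- the test with explicit coefficients: `a = α`, `b = β`, `c = α'`, `e = β'` -/
def tst {L : ℕ} (s k a b c e l lo hi : Fin (L + 1) → ℚ) : Prop :=
  (∀ i, 0 < l i) ∧ (∑ i, l i * hi i ≤ piLo / 2) ∧
  fin6 (isum (fun i => s i / 2 / l i) (fun i => 1 / 2 / l i) lo hi)
    (isum (fun i => (c i * k i - e i * s i) / 2 / l i) (fun i => -e i / 2 / l i) lo hi)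
    (isum (fun i => (e i ^ 2 * s i - c i ^ 2 * s i - 2 * c i * e i * k i) / 2 / l i)
      (fun i => (c i ^ 2 + e i ^ 2) / 2 / l i) lo hi)
    (isum (fun i => (a i ^ 2 * s i + 2 * a i * b i * k i - b i ^ 2 * s i) / 2 / l i)
      (fun i => (a i ^ 2 + b i ^ 2) / 2 / l i) lo hi)
    (isum (fun i => (b i * s i - a i * k i) / 2 / l i) (fun i => -b i / 2 / l i) lo hi)
    (isum (fun i => - s i / 2 / l i) (fun i => 1 / 2 / l i) lo hi)

instance {L : ℕ} (s k a b c e l lo hi : Fin (L + 1) → ℚ) :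
    Decidable (tst s k a b c e l lo hi) := by
  unfold tst; infer_instance

theorem tst_sound {L : ℕ} (t : Fin L → ℚ) (s k a b c e l lo hi : Fin (L + 1) → ℚ)
    (hs : ∀ i, sQ t i = s i) (hk : ∀ i, kQ t i = k i) (h : tst s k a b c e l lo hi)
    (hD : ∀ i, ((lo i : ℚ) : ℝ) ≤ Dl (fun i => (t i : ℝ)) i ∧
      Dl (fun i => (t i : ℝ)) i ≤ ((hi i : ℚ) : ℝ)) :
    Cond (fun i => (t i : ℝ)) (fun i => (a i : ℝ)) (fun i => (b i : ℝ)) (fun i => (c i : ℝ))
      (fun i => (e i : ℝ)) (fun i => (l i : ℝ)) := by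
  obtain ⟨hl, hsum, h6⟩ := h
  have hl' : ∀ i, (0 : ℝ) < (l i : ℝ) := fun i => by exact_mod_cast hl i
  refine ⟨hl', ?_, ?_⟩
  · calc ∑ i, (l i : ℝ) * Dl (fun i => (t i : ℝ)) i ≤ ∑ i, (l i : ℝ) * (hi i : ℝ) :=
          Finset.sum_le_sum (fun i _ => mul_le_mul_of_nonneg_left (hD i).2 (hl' i).le)
      _ ≤ (piLo : ℝ) / 2 := by exact_mod_cast hsum
      _ ≤ Real.pi / 2 := by
          have := Real.pi_gt_d20
          unfold piLo
          push_cast
          norm_num at this ⊢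
          linarith
  · intro X00 X01 X11 Y00 Y01 Y11 e00 e01 e11 f00 f01 f11
    refine fin6_sound h6 ?_ ?_ ?_ ?_ ?_ ?_
    · have h1 := In.sum (fun i => s i / 2 / l i) (fun i => 1 / 2 / l i) lo hi
        (Dl (fun i => (t i : ℝ))) hD
      rw [e00]
      convert h1 using 1
      refine Finset.sum_congr rfl (fun i _ => ?_)
      rw [cc_eq, hs]
      push_cast
      ring
    · have h1 := In.sum (fun i => (c i * k i - e i * s i) / 2 / l i) (fun i => -e i / 2 / l i) lo hi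
        (Dl (fun i => (t i : ℝ))) hD
      rw [e01]
      convert h1 using 1
      refine Finset.sum_congr rfl (fun i _ => ?_)
      rw [cc_eq, cs_eq, hs, hk]
      push_cast
      ring
    · have h1 := In.sum (fun i => (e i ^ 2 * s i - c i ^ 2 * s i - 2 * c i * e i * k i) / 2 / l i)
        (fun i => (c i ^ 2 + e i ^ 2) / 2 / l i) lo hi (Dl (fun i => (t i : ℝ))) hD
      rw [e11]
      convert h1 using 1
      refine Finset.sum_congr rfl (fun i _ => ?_)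
      rw [cc_eq, cs_eq, ss_eq, hs, hk]
      push_cast
      ring
    · have h1 := In.sum (fun i => (a i ^ 2 * s i + 2 * a i * b i * k i - b i ^ 2 * s i) / 2 / l i)
        (fun i => (a i ^ 2 + b i ^ 2) / 2 / l i) lo hi (Dl (fun i => (t i : ℝ))) hD
      rw [f00]
      convert h1 using 1
      refine Finset.sum_congr rfl (fun i _ => ?_)
      rw [cc_eq, cs_eq, ss_eq, hs, hk]
      push_cast
      ring
    · have h1 := In.sum (fun i => (b i * s i - a i * k i) / 2 / l i) (fun i => -b i / 2 / l i) lo hi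
        (Dl (fun i => (t i : ℝ))) hD
      rw [f01, ← Finset.sum_neg_distrib]
      convert h1 using 1
      refine Finset.sum_congr rfl (fun i _ => ?_)
      rw [cs_eq, ss_eq, hs, hk]
      push_cast
      ring
    · have h1 := In.sum (fun i => - s i / 2 / l i) (fun i => 1 / 2 / l i) lo hi
        (Dl (fun i => (t i : ℝ))) hD
      rw [f11]
      convert h1 using 1
      refine Finset.sum_congr rfl (fun i _ => ?_)
      rw [ss_eq, hs]
      push_cast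
      ring

/-- the test for the condition, with explicit vectors -/
theorem condQ {N L : ℕ} (D : DatQ N L) (J : Fin N) (r : ℚ)
    (s k a b c e l lo hi : Fin (L + 1) → ℚ)
    (hs : ∀ i, sQ D.t i = s i) (hk : ∀ i, kQ D.t i = k i)
    (ha : ∀ i, alQ D (fAQ (J.val + 1)) i = a i) (hb : ∀ i, beQ D (fAQ (J.val + 1)) i = b i)
    (hc : ∀ i, alQ D (fCQ D (J.val + 1) r) i = c i)
    (he : ∀ i, beQ D (fCQ D (J.val + 1) r) i = e i) (h : tst s k a b c e l lo hi)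
    (hD : ∀ i, ((lo i : ℚ) : ℝ) ≤ Dl D.toDat.t i ∧ Dl D.toDat.t i ≤ ((hi i : ℚ) : ℝ)) :
    CondQ D J r l := by
  have h1 := tst_sound D.t s k a b c e l lo hi hs hk h hD
  unfold CondQ
  have ea : D.toDat.al (fA (J.val + 1)) = fun i => (a i : ℝ) := by
    funext i
    rw [al_cast D (fAQ (J.val + 1)) _ (fun j => fA_cast _ j), ha]
  have eb : D.toDat.be (fA (J.val + 1)) = fun i => (b i : ℝ) := by
    funext i
    rw [be_cast D (fAQ (J.val + 1)) _ (fun j => fA_cast _ j), hb]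
  have ec : D.toDat.al (fC D.toDat (J.val + 1) (r : ℝ)) = fun i => (c i : ℝ) := by
    funext i
    rw [al_cast D (fCQ D (J.val + 1) r) _ (fun j => fC_cast D _ _ j), hc]
  have ee : D.toDat.be (fC D.toDat (J.val + 1) (r : ℝ)) = fun i => (e i : ℝ) := by
    funext i
    rw [be_cast D (fCQ D (J.val + 1) r) _ (fun j => fC_cast D _ _ j), he]
  rw [ea, eb, ec, ee]
  exact h1

end Pool.Agent.N169.P1
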