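import Pool.Agent.N169.P1.Chk

set_option autoImplicit false

/-! # Project P1 (helper979), CHK: the computable test (helper169) -/

namespace Pool.Agent.N169.P1

open Pool.Agent.N979.P1

/-- the test -/
def ok {N L : ℕ} (D : DatQ N L) (dlo dhi : Fin (L + 1) → ℚ) (J : Fin N) (r : ℚ)
    (l : Fin (L + 1) → ℚ) : Bool :=
  decide (tst (sQ D.t) (kQ D.t) (alQ D (fAQ (J.val + 1))) (beQ D (fAQ (J.val + 1)))
    (alQ D (fCQ D (J.val + 1) r)) (beQ D (fCQ D (J.val + 1) r)) l dlo dhi)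

theorem chk : S_CHK @ok := by
  intro N L D dlo dhi J r l h hD
  exact condQ D J r _ _ _ _ _ _ l dlo dhi (fun _ => rfl) (fun _ => rfl) (fun _ => rfl)
    (fun _ => rfl) (fun _ => rfl) (fun _ => rfl) (of_decide_eq_true h) hD

end Pool.Agent.N169.P1
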