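import Pool.Agent.N169.P1.Vec

set_option autoImplicit false

/-! # Project P1 (helper979): numerical conditions (helper169) -/

namespace Pool.Agent.N169.P1.J0

open Pool.Agent.N979.P1 Pool.Agent.N979.P1.A Pool.Agent.N169.P1

def a0 : Fin 18 → ℚ := ![
    0, 4791/62500, 136947/1000000, 190947/1000000, 221307/1000000, 224519/1000000,
    208167/1000000, 188477/1000000, 174717/1000000, 174027/1000000, 204717/1000000,
    253059/1000000, 318509/1000000, 38399/100000, 42711/100000, 41227/100000, 1969/6250,
    6029/50000]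

def b0 : Fin 18 → ℚ := ![
    1864509/10000, 267509/10000, 84809/10000, 30809/10000, 17609/10000, 16879/10000,
    19119/10000, 20909/10000, 21769/10000, 21799/10000, 20809/10000, 9829/5000, 4617/2500,
    17571/10000, 17131/10000, 17237/10000, 177/100, 18163/10000]

def c0l : Fin 18 → ℚ := ![
    0, 0, 0, 0, 0, 0, 0, 0, 0, 0, 0, 0, 0, 0, 0, 0, 0, 0]

def e0l : Fin 18 → ℚ := ![
    19963/10000, 19963/10000, 19963/10000, 19963/10000, 19963/10000, 19963/10000, 19963/10000,
    19963/10000, 19963/10000, 19963/10000, 19963/10000, 19963/10000, 19963/10000, 19963/10000,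
    19963/10000, 19963/10000, 19963/10000, 19963/10000]

def c0h : Fin 18 → ℚ := ![
    0, 2361963/62750000, 67514871/1004000000, 94136871/1004000000, 109104351/1004000000,
    110687867/1004000000, 102626331/1004000000, 92919161/1004000000, 86135481/1004000000,
    85795311/1004000000, 100925481/1004000000, 124758087/1004000000, 157024937/1004000000,
    18930707/100400000, 21056523/100400000, 20324911/100400000, 970717/6275000, 2972297/50200000]

def e0h : Fin 18 → ℚ := ![
    92940403/1004000, 14208303/1004000, 5201193/1004000, 2538993/1004000, 1888233/1004000,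
    463061/251000, 490669/251000, 2050923/1004000, 2093321/1004000, 5237/2510, 2045993/1004000,
    19892487/10040000, 19305817/10040000, 4715899/2510000, 4661669/2510000, 9349467/5020000,
    18927193/10040000, 4788863/2510000]

theorem ha0 : ∀ i, alQ datQ (fAQ 1) i = a0 i := by decide +kernel

theorem hb0 : ∀ i, beQ datQ (fAQ 1) i = b0 i := by decide +kernel

theorem hcl0 : ∀ i, alQ datQ (fCQ datQ 1 (datQ.ρ 0)) i = c0l i := by decide +kernel

theorem hel0 : ∀ i, beQ datQ (fCQ datQ 1 (datQ.ρ 0)) i = e0l i := by decide +kernel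

theorem hch0 : ∀ i, alQ datQ (fCQ datQ 1 (datQ.rhi RrQ 0)) i = c0h i := by decide +kernel

theorem heh0 : ∀ i, beQ datQ (fCQ datQ 1 (datQ.rhi RrQ 0)) i = e0h i := by decide +kernel

theorem tl0 : tst sV kV a0 b0 c0l e0l (lamLo 0) dlo dhi := by decide +kernel

theorem th0 : tst sV kV a0 b0 c0h e0h (lamHi 0) dlo dhi := by decide +kernel

theorem ck0 (h : S_BND) : S_CK 0 :=
  ⟨condQ datQ 0 (datQ.ρ 0) sV kV a0 b0 c0l e0l (lamLo 0) dlo dhi hsV hkV ha0 hb0 hcl0 hel0
      tl0 h,
    condQ datQ 0 (datQ.rhi RrQ 0) sV kV a0 b0 c0h e0h (lamHi 0) dlo dhi hsV hkV ha0 hb0 hch0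
      heh0 th0 h⟩

end Pool.Agent.N169.P1.J0
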