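import Pool.Agent.N169.P1.Vec

set_option autoImplicit false

/-! # Project P1 (helper979): numerical conditions (helper169) -/

namespace Pool.Agent.N169.P1.J16

open Pool.Agent.N979.P1 Pool.Agent.N979.P1.A Pool.Agent.N169.P1

def a16 : Fin 18 → ℚ := ![
    0, 20484/3125, 9438717/1000000, 11559217/1000000, 12829047/1000000, 2666543/200000,
    13098239/1000000, 11995379/1000000, 9928979/1000000, 7509379/1000000, 5224989/1000000,
    3493203/1000000, 73899/31250, 1604473/1000000, 1111729/1000000, 695649/1000000,
    433989/1000000, 150909/1000000]

def b16 : Fin 18 → ℚ := ![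
    14756603/1000, 1100603/1000, 226713/1000, 14663/1000, -40547/1000, -25997/500, -24391/500,
    -9689/250, -25841/1000, -15321/1000, -994/125, -38287/10000, -1777/1000, -1471/2000,
    -2327/10000, 129/2000, 1891/10000, 513/2000]

def c16l : Fin 18 → ℚ := ![
    0, 7387342/30859375, 194599171/493750000, 290716871/493750000, 152464691/185156250,
    39850603/37031250, 1312013687/987500000, 2335988213/1481250000, 2685026093/1481250000,
    1969493947/987500000, 3107429513/1481250000, 3143729021/1481250000, 12207890579/5925000000,
    1888114739/987500000, 2459171491/1481250000, 973184443/740625000, 2571950017/2962500000,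
    906061807/2962500000]

def e16l : Fin 18 → ℚ := ![
    34917399347/59250000, 5368031347/59250000, 2589787747/59250000, 1436375347/59250000,
    831911147/59250000, 491632427/59250000, 95567629/19750000, 152896457/59250000,
    65636987/59250000, 6272339/19750000, -949253/59250000, -1468783/19750000, 377807/9875000,
    14310707/59250000, 4922537/9875000, 1767469/2370000, 7095707/7406250, 64698457/59250000]

def c16h : Fin 18 → ℚ := ![
    0, 37115346/94859375, 1856621367/3035500000, 2588124067/3035500000, 3375955487/3035500000,
    832267287/607100000, 1223053127/758875000, 5547639093/3035500000, 6094867653/3035500000,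
    1614166627/758875000, 6596283223/3035500000, 503266297/233500000, 12553146707/6071000000,
    2890735373/1517750000, 4999499199/3035500000, 3943520149/3035500000, 1301815607/1517750000,
    229269541/758875000]

def e16h : Fin 18 → ℚ := ![
    56462039727/60710000, 6974911727/60710000, 2920788727/60710000, 112137179/4670000,
    772712527/60710000, 415721187/60710000, 215481167/60710000, 7408669/4670000,
    27909127/60710000, -3551643/60710000, -12559173/60710000, -9996251/60710000,
    -163789/30355000, 13236877/60710000, 729887/1517750, 8856179/12142000, 28520871/30355000,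
    65072947/60710000]

theorem ha16 : ∀ i, alQ datQ (fAQ 17) i = a16 i := by decide +kernel

theorem hb16 : ∀ i, beQ datQ (fAQ 17) i = b16 i := by decide +kernel

theorem hcl16 : ∀ i, alQ datQ (fCQ datQ 17 (datQ.ρ 16)) i = c16l i := by decide +kernel

theorem hel16 : ∀ i, beQ datQ (fCQ datQ 17 (datQ.ρ 16)) i = e16l i := by decide +kernel

theorem hch16 : ∀ i, alQ datQ (fCQ datQ 17 (datQ.rhi RrQ 16)) i = c16h i := by decide +kernel

theorem heh16 : ∀ i, beQ datQ (fCQ datQ 17 (datQ.rhi RrQ 16)) i = e16h i := by decide +kernel

theorem tl16 : tst sV kV a16 b16 c16l e16l (lamLo 16) dlo dhi := by decide +kernel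

theorem th16 : tst sV kV a16 b16 c16h e16h (lamHi 16) dlo dhi := by decide +kernel

theorem ck16 (h : S_BND) : S_CK 16 :=
  ⟨condQ datQ 16 (datQ.ρ 16) sV kV a16 b16 c16l e16l (lamLo 16) dlo dhi hsV hkV ha16 hb16 hcl16 hel16
      tl16 h,
    condQ datQ 16 (datQ.rhi RrQ 16) sV kV a16 b16 c16h e16h (lamHi 16) dlo dhi hsV hkV ha16 hb16 hch16
      heh16 th16 h⟩

end Pool.Agent.N169.P1.J16
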